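import Pool.Agent.H9.K2.Stmts
import Pool.Agent.H12.KA.WI2
import Pool.Agent.H32.Dense.Pair

/-!
# The class `(a, R)`: windows
-/

set_option autoImplicit false

namespace Pool.KA

open Finset Real
open Pool.Agent.H49.Ent Pool.Agent.H32.Dense Pool.STK

namespace AP4

/-- The position at a fine scale determines the position at a coarse scale. -/
lemma X_det {m J : ℕ} (F : Fam m J) {g : ℕ} (hg : g ≤ J) {ω ω' : F.Ω} (h : F.X J ω = F.X J ω') :
    F.X g ω = F.X g ω' := by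
  have key : ∀ r : ℝ, ⌊(2 : ℝ) ^ g * r⌋ = ⌊(2 : ℝ) ^ J * r⌋ / (2 ^ (J - g) : ℤ) := by
    intro r
    have e : (2 : ℝ) ^ g * r = (2 : ℝ) ^ J * r / ((2 ^ (J - g) : ℕ) : ℝ) := by
      have h1 : (2 : ℝ) ^ J = 2 ^ g * 2 ^ (J - g) := by
        rw [← pow_add]
        congr 1
        omega
      push_cast
      rw [eq_div_iff (by positivity), h1]
      ring
    rw [e, Int.floor_div_natCast]
    push_cast
    rfl
  funext i
  have h1 : ⌊(2 : ℝ) ^ J * F.x ω i⌋ = ⌊(2 : ℝ) ^ J * F.x ω' i⌋ := congrFun h i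
  change ⌊(2 : ℝ) ^ g * F.x ω i⌋ = ⌊(2 : ℝ) ^ g * F.x ω' i⌋
  rw [key, key, h1]

end AP4

/-- **(P4) Windows.** -/
theorem ap4_thm (hO : AOPStmt) : AP4Stmt := by
  intro m
  obtain ⟨C₀, _, hO⟩ := hO m
  obtain ⟨C, hC, hW⟩ := wi2_thm m
  refine ⟨C, hC, ?_⟩
  intro J g F a R η e hg ha hη he h1 h2
  have hp := F.isLaw.nonneg
  have h3 := (hO J F a (by linarith)).2.1 g hg
  have w1 := (hW J F g hg _ (F.X J)).1
  have w2 := (hW J F g hg _ (F.D (J - g))).2 e he (by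
    intro ω ω' _ _ h
    have h4 : F.d ω = F.d ω' := (Prod.ext_iff.1 h).2
    change fl (J - g) (F.d ω) = fl (J - g) (F.d ω')
    rw [h4])
  have c1 := CH_bayes hp (F.X J) (F.X g) F.W
  have c2 : CH F.p (F.X g) (fun ω => (F.X J ω, F.W ω)) = 0 := CH_eq_zero hp
    fun ω ω' _ _ h => AP4.X_det F hg (Prod.ext_iff.1 h).1
  have c3 := CH_chain hp (F.X g) (F.D (J - g)) F.W
  have c4 := CH_bayes hp (F.D (J - g)) (F.X g) F.W
  rw [h3] at h2
  unfold Fam.Ga at h1
  rw [abs_le] at w1 w2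
  have hg0 : (0 : ℝ) ≤ g := Nat.cast_nonneg g
  have k1 : 0 ≤ η * g := mul_nonneg hη hg0
  have he0 : 0 ≤ e := by
    have t1 : CH F.p F.T (fun ω => (F.l ω, F.Z ω)) ≤ J * Real.log 2 := by
      have t2 := CH_le_card hp F.isLaw.sum_one F.T (fun ω => (F.l ω, F.Z ω))
        (fun _ => Finset.range (2 ^ J)) (fun ω _ => Finset.mem_range.2 (F.tim ω))
      rw [Ex_const F.isLaw.sum_one, Finset.card_range] at t2
      push_cast at t2
      rwa [Real.log_pow] at t2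
    unfold Fam.Tm at he
    linarith
  have k2 : a * (CH F.p (F.X J) (fun ω => (F.T ω, F.c g ω)) -
      CH F.p (F.X J) (fun ω => (F.X g ω, F.W ω))) ≤ a * C :=
    mul_le_mul_of_nonneg_left (by linarith [w1.2]) (by linarith)
  have k3 : a * (CH F.p (F.X J) (fun ω => (F.X g ω, F.W ω))) =
      a * (CH F.p (F.X J) F.W - CH F.p (F.X g) F.W) := by
    rw [c1, c2]
    ring
  have k4 : (e + C) ≤ a * (e + C) := le_mul_of_one_le_left (by linarith) ha
  have k5 : 0 ≤ a * e := mul_nonneg (by linarith) he0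
  rw [c3]
  nlinarith [h1, h2, w2.1, k1, k2, k3, k4, k5, c4]

end Pool.KA
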