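import Pool.Agent.H70.K2.AVGDefs
import Pool.Agent.H40.KAL.FRMb
import Pool.Agent.H73.KAF.RST

/-!
# From averages over contexts to fixed values of the context: proofs
-/

set_option autoImplicit false

namespace Pool.KX

open Finset Real MeasureTheory
open Pool.Agent.H49.Ent Pool.Agent.H32.Dense Pool.STK Pool.KAF Pool.KAL

theorem avg1_thm : AVG1Stmt := by
  intro Ω O β ξ _ p o b X c n hp h
  induction n with
  | zero => simp
  | succ n ih =>
    have h1 := ih (fun i hi => h i (Nat.lt_succ_of_lt hi))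
    have h2 := h n (Nat.lt_succ_self n)
    rw [Finset.sum_range_succ, Finset.sum_range_succ]
    have c1 := CH_chain hp o (X n) (b n)
    have c2 := CH_le_add hp o (fun ω => (b n ω, X n ω)) (b (n + 1))
    have c3 : CH p o (fun ω => ((b n ω, X n ω), b (n + 1) ω)) ≤
        CH p o (fun ω => (X n ω, b n ω)) := by
      refine CH_mono_cond hp ?_
      intro ω ω' _ _ h
      have h3 := (Prod.ext_iff.1 h).1
      exact Prod.ext (Prod.ext_iff.1 h3).2 (Prod.ext_iff.1 h3).1
    unfold Pool.KVA.MI at h1 ⊢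
    linarith

theorem avg2_thm : AVG2Stmt := by
  intro n x S e hx hS
  have h1 : (((range n).filter fun i => e < x i).card : ℝ) * e ≤
      ∑ i ∈ (range n).filter (fun i => e < x i), x i := by
    have := Finset.card_nsmul_le_sum ((range n).filter fun i => e < x i) x e
      fun i hi => (mem_filter.1 hi).2.le
    rwa [nsmul_eq_mul] at this
  have h2 : ∑ i ∈ (range n).filter (fun i => e < x i), x i ≤ ∑ i ∈ range n, x i :=
    Finset.sum_le_sum_of_subset_of_nonneg (filter_subset _ _) fun i _ _ => hx i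
  linarith

namespace AVG

variable {Ω : Type} [Fintype Ω] {S T β : Type}

/-- Markov's inequality for a function of the context. -/
lemma markov {p : Ω → ℝ} (hp : ∀ ω, 0 ≤ p ω) (f : Ω → ℝ) (hf : ∀ ω, 0 < p ω → 0 ≤ f ω) (e a : ℝ)
    (he : 0 < e) (h : ∑ ω, p ω * f ω ≤ e * a) : Pr p {ω | e < f ω} ≤ a := by
  classical
  rw [Pool.KAF.Pr_eq]
  have h1 : e * ∑ ω, (if ω ∈ {ω | e < f ω} then p ω else 0) ≤ ∑ ω, p ω * f ω := by
    rw [Finset.mul_sum]
    refine Finset.sum_le_sum fun ω _ => ?_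
    rcases (hp ω).eq_or_lt with h0 | h0
    · rw [← h0]
      simp
    · by_cases h2 : e < f ω
      · rw [if_pos (by exact h2)]
        nlinarith
      · rw [if_neg (by exact h2), mul_zero]
        exact mul_nonneg h0.le (hf ω h0)
  have h2 : e * ∑ ω, (if ω ∈ {ω | e < f ω} then p ω else 0) ≤ e * a := h1.trans h
  exact le_of_mul_le_mul_left h2 he

/-- The mutual information given the context as a mean over the values of the context. -/
lemma MI_eq {p : Ω → ℝ} (hp : ∀ ω, 0 ≤ p ω) (X : Ω → S) (Y : Ω → T) (b : Ω → β) :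
    Pool.KVA.MI p X Y b = ∑ ω, p ω * (H (Pool.Agent.H49.Ent.cond p b (b ω)) X +
      H (Pool.Agent.H49.Ent.cond p b (b ω)) Y -
      H (Pool.Agent.H49.Ent.cond p b (b ω)) (fun ω' => (X ω', Y ω'))) := by
  classical
  rw [sum_mul_eq_sum_image p b (fun z => H (Pool.Agent.H49.Ent.cond p b z) X +
      H (Pool.Agent.H49.Ent.cond p b z) Y -
      H (Pool.Agent.H49.Ent.cond p b z) (fun ω' => (X ω', Y ω')))]
  unfold Pool.KVA.MI
  rw [CH_eq_sum hp, CH_eq_sum hp, CH_eq_sum hp, ← Finset.sum_add_distrib,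
    ← Finset.sum_sub_distrib]
  exact Finset.sum_congr rfl fun z _ => by ring

lemma cond_law {p : Ω → ℝ} (hp : IsLaw p) (b : Ω → β) {ω : Ω} (h : 0 < p ω) :
    IsLaw (Pool.Agent.H49.Ent.cond p b (b ω)) :=
  ⟨fun ω' => cond_nonneg hp.nonneg _ _ ω', sum_cond p _ (law_pos hp.nonneg b h).ne'⟩

/-- The probability of an event as a mean over the values of the context. -/
lemma Pr_cond_sum {p : Ω → ℝ} (hp : ∀ ω, 0 ≤ p ω) (b : Ω → β) (B : Set Ω) :
    ∑ ω, p ω * Pr (Pool.Agent.H49.Ent.cond p b (b ω)) B = Pr p B := by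
  classical
  rw [sum_mul_eq_sum_image p b (fun z => Pr (Pool.Agent.H49.Ent.cond p b z) B)]
  rw [Pool.KAF.Pr_eq p B]
  have h1 : ∀ z ∈ univ.image b, law p b z * Pr (Pool.Agent.H49.Ent.cond p b z) B =
      ∑ ω, if b ω = z then (if ω ∈ B then p ω else 0) else 0 := by
    intro z _
    rw [Pool.KAF.Pr_eq, Finset.mul_sum]
    refine Finset.sum_congr rfl fun ω _ => ?_
    unfold Pool.Agent.H49.Ent.cond
    by_cases hz : b ω = z
    · rw [if_pos hz, if_pos hz]
      by_cases hB : ω ∈ B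
      · rw [if_pos hB, if_pos hB]
        rcases (hp ω).eq_or_lt with h0 | h0
        · rw [← h0]
          simp
        · have h2 := law_pos hp b h0
          rw [hz] at h2
          field_simp
      · rw [if_neg hB, if_neg hB, mul_zero]
    · rw [if_neg hz, if_neg hz]
      split_ifs <;> simp
  rw [Finset.sum_congr rfl h1, Finset.sum_comm]
  refine Finset.sum_congr rfl fun ω _ => ?_
  rw [Finset.sum_eq_single (b ω)]
  · rw [if_pos rfl]
  · intro z _ hz
    rw [if_neg hz.symm]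
  · intro h
    exact absurd (mem_image_of_mem b (mem_univ ω)) h

end AVG

open AVG

theorem avg3_thm : AVG3Stmt := by
  intro Ω S T β _ p X Y b e a hp he h
  rw [MI_eq hp.nonneg] at h
  refine markov hp.nonneg _ ?_ e a he h
  intro ω hω
  have hq := cond_law hp b hω
  have := subadd hq.nonneg hq.sum_one (X := X) (Y := Y) (W := fun ω' => (X ω', Y ω'))
    (fun _ _ _ _ h => h)
  linarith

theorem avg4_thm : AVG4Stmt := by
  classical
  intro Ω S β _ p o b F η hp hη hF
  rw [Pool.KAF.Pr_eq]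
  have e1 : ∑ ω, (if ω ∈ {ω | law (Pool.Agent.H49.Ent.cond p b (b ω)) o (o ω) < η} then p ω
      else 0) = ∑ ω, p ω * (fun y : S × β =>
        if law (Pool.Agent.H49.Ent.cond p b y.2) o y.1 < η then (1 : ℝ) else 0) (o ω, b ω) := by
    refine Finset.sum_congr rfl fun ω _ => ?_
    by_cases h : law (Pool.Agent.H49.Ent.cond p b (b ω)) o (o ω) < η
    · simp [h]
    · simp [h]
  rw [e1, sum_mul_eq_sum_image p (fun ω => (o ω, b ω)) (fun y : S × β =>
        if law (Pool.Agent.H49.Ent.cond p b y.2) o y.1 < η then (1 : ℝ) else 0)]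
  have h1 : ∀ y ∈ univ.image (fun ω => (o ω, b ω)), law p (fun ω => (o ω, b ω)) y *
      (if law (Pool.Agent.H49.Ent.cond p b y.2) o y.1 < η then (1 : ℝ) else 0) ≤
      η * law p b y.2 := by
    intro y _
    have hl := law_nonneg hp.nonneg b y.2
    by_cases h : law (Pool.Agent.H49.Ent.cond p b y.2) o y.1 < η
    · rw [if_pos h, mul_one]
      rw [law_cond] at h
      rcases hl.eq_or_lt with h0 | h0
      · have h2 := law_pair_le' hp.nonneg o b y.1 y.2
        rw [← h0] at h2 ⊢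
        simpa using h2
      · rw [div_lt_iff₀ h0] at h
        exact h.le
    · rw [if_neg h, mul_zero]
      exact mul_nonneg hη hl
  refine (Finset.sum_le_sum h1).trans ?_
  have h2 : univ.image (fun ω => (o ω, b ω)) ⊆ F ×ˢ univ.image b := by
    intro y hy
    obtain ⟨ω, -, rfl⟩ := mem_image.1 hy
    exact mem_product.2 ⟨hF ω, mem_image_of_mem _ (mem_univ _)⟩
  refine (Finset.sum_le_sum_of_subset_of_nonneg h2 fun y _ _ =>
    mul_nonneg hη (law_nonneg hp.nonneg b y.2)).trans ?_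
  rw [Finset.sum_product]
  simp only
  rw [Finset.sum_const, ← Finset.mul_sum, sum_law, hp.sum_one, nsmul_eq_mul]
  exact le_of_eq (by ring)

theorem avg5_thm : AVG5Stmt := by
  classical
  intro d N Ω S U β _ p X A V o b g B R e₁ e₂ e₃ a η hp hN hR he₁ he₂ he₃ hη hB hX hA hPB
  set E₁ : Set Ω := {ω | e₁ < H (Pool.Agent.H49.Ent.cond p b (b ω)) (fun ω' => (X ω', V ω')) +
      H (Pool.Agent.H49.Ent.cond p b (b ω)) o -
      H (Pool.Agent.H49.Ent.cond p b (b ω)) (fun ω' => ((X ω', V ω'), o ω'))} with hE₁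
  set E₂ : Set Ω := {ω | e₂ < H (Pool.Agent.H49.Ent.cond p b (b ω)) (fun ω' => (A ω', V ω')) +
      H (Pool.Agent.H49.Ent.cond p b (b ω)) o -
      H (Pool.Agent.H49.Ent.cond p b (b ω)) (fun ω' => ((A ω', V ω'), o ω'))} with hE₂
  set E₃ : Set Ω := {ω | e₃ < Pr (Pool.Agent.H49.Ent.cond p b (b ω)) B} with hE₃
  have p1 : Pr p E₁ ≤ a := avg3_thm Ω _ S β p _ o b e₁ a hp he₁ hX
  have p2 : Pr p E₂ ≤ a := avg3_thm Ω _ S β p _ o b e₂ a hp he₂ hA
  have p3 : Pr p E₃ ≤ a := by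
    refine markov hp.nonneg _ ?_ e₃ a he₃ ?_
    · intro ω hω
      exact Pool.KAF.Pr_nonneg (cond_law hp b hω).nonneg B
    · rw [Pr_cond_sum hp.nonneg]
      exact hPB
  refine ⟨E₁ ∪ E₂ ∪ E₃, ?_, ?_⟩
  · have h1 := Pool.KAF.Pr_union_le hp.nonneg (E₁ ∪ E₂) E₃
    have h2 := Pool.KAF.Pr_union_le hp.nonneg E₁ E₂
    linarith
  · intro ω hω hpω s s' hs hs'
    have n1 : ω ∉ E₁ := fun h => hω (Or.inl (Or.inl h))
    have n2 : ω ∉ E₂ := fun h => hω (Or.inl (Or.inr h))
    have n3 : ω ∉ E₃ := fun h => hω (Or.inr h)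
    have m1 : H (Pool.Agent.H49.Ent.cond p b (b ω)) (fun ω' => (X ω', V ω')) +
        H (Pool.Agent.H49.Ent.cond p b (b ω)) o -
        H (Pool.Agent.H49.Ent.cond p b (b ω)) (fun ω' => ((X ω', V ω'), o ω')) ≤ e₁ :=
      le_of_not_gt fun h => n1 h
    have m2 : H (Pool.Agent.H49.Ent.cond p b (b ω)) (fun ω' => (A ω', V ω')) +
        H (Pool.Agent.H49.Ent.cond p b (b ω)) o -
        H (Pool.Agent.H49.Ent.cond p b (b ω)) (fun ω' => ((A ω', V ω'), o ω')) ≤ e₂ :=
      le_of_not_gt fun h => n2 h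
    have m3 : Pr (Pool.Agent.H49.Ent.cond p b (b ω)) B ≤ e₃ := le_of_not_gt fun h => n3 h
    set q := Pool.Agent.H49.Ent.cond p b (b ω) with hq
    have hqL : IsLaw q := cond_law hp b hpω
    set B' : Set Ω := B ∪ {ω' | b ω' ≠ b ω} with hB'
    have hPr : Pr q B' ≤ e₃ := by
      refine le_trans (Pool.KAF.Pr_mono hqL.nonneg ?_) m3
      intro ω' hω' h
      rcases h with h | h
      · exact h
      · exact absurd ((cond_pos_iff hp.nonneg b (b ω) ω').1 hω').2 h
    have hPr0 : 0 ≤ Pr q B' := Pool.KAF.Pr_nonneg hqL.nonneg B'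
    have key := ti1_thm d N Ω S U q X A V o (g (b ω)) B' R e₁ e₂ s s' hqL hN hR (by
      intro ω' hω' i
      have h1 : ω' ∉ B := fun h => hω' (Or.inl h)
      have h2 : b ω' = b ω := by
        by_contra h
        exact hω' (Or.inr h)
      have := hB ω' h1 i
      rwa [h2] at this) m1 m2 (lt_of_lt_of_le hη hs) (lt_of_lt_of_le hη hs')
    intro G
    refine (key G).trans ?_
    have hnum : 0 ≤ Real.sqrt e₁ + Real.sqrt e₂ + Pr q B' := by positivity
    have b1 : (Real.sqrt e₁ + Real.sqrt e₂ + Pr q B') / law q o s ≤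
        (Real.sqrt e₁ + Real.sqrt e₂ + e₃) / η := by
      have : Real.sqrt e₁ + Real.sqrt e₂ + Pr q B' ≤ Real.sqrt e₁ + Real.sqrt e₂ + e₃ := by
        linarith
      gcongr
    have b2 : (Real.sqrt e₁ + Real.sqrt e₂ + Pr q B') / law q o s' ≤
        (Real.sqrt e₁ + Real.sqrt e₂ + e₃) / η := by
      have : Real.sqrt e₁ + Real.sqrt e₂ + Pr q B' ≤ Real.sqrt e₁ + Real.sqrt e₂ + e₃ := by
        linarith
      gcongr
    linarith

theorem avg6_thm : AVG6Stmt := by
  classical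
  intro Ω S β _ p o b F r M _ hp hF hM hr
  have hne : Nonempty Ω := by
    by_contra h
    rw [not_nonempty_iff] at h
    have := hp.sum_one
    simp at this
  obtain ⟨ω₀⟩ := hne
  have hFc : (1 : ℝ) ≤ F.card := by
    exact_mod_cast Finset.card_pos.2 ⟨o ω₀, hF ω₀⟩
  have h := Pool.KAL.FRM.near hp b o (fun s => F.filter fun x => r x s) (fun _ => F)
    (κ := M) (L := F.card) (δ := Pr (dbl p b) {w | ¬ r (o w.1) (o w.2)})
    (by exact_mod_cast hM) hFc (by
      intro s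
      exact_mod_cast hr s) (fun ω _ => hF ω) (fun _ _ => le_rfl) (by
      rw [Pool.KAF.Pr_eq]
      unfold Ex
      refine Finset.sum_le_sum fun w _ => ?_
      by_cases h : r (o w.1) (o w.2)
      · have h1 : o w.1 ∈ F.filter fun x => r x (o w.2) := mem_filter.2 ⟨hF _, h⟩
        have h2 : w ∉ {w : Ω × Ω | ¬ r (o w.1) (o w.2)} := fun h' => h' h
        rw [if_neg h2]
        show dbl p b w * (if o w.1 ∈ F.filter (fun x => r x (o w.2)) then 0 else 1) ≤ 0
        rw [if_pos h1, mul_zero]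
      · have h1 : ¬ o w.1 ∈ F.filter fun x => r x (o w.2) := fun h' => h (mem_filter.1 h').2
        have h2 : w ∈ {w : Ω × Ω | ¬ r (o w.1) (o w.2)} := h
        rw [if_pos h2]
        show dbl p b w * (if o w.1 ∈ F.filter (fun x => r x (o w.2)) then 0 else 1) ≤ dbl p b w
        rw [if_neg h1, mul_one])
  linarith

theorem avg7_thm : AVG7Stmt := by
  classical
  intro d N Ω S U β _ p X A V o b g B F r M R e₁ e₂ e₃ a η _ hp hN hR he₁ he₂ he₃ hη hM hF2 hF
    hr hB hX hA hPB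
  obtain ⟨E, hE, hT⟩ := avg5_thm d N Ω S U β p X A V o b g B R e₁ e₂ e₃ a η hp hN hR he₁ he₂ he₃
    hη hB hX hA hPB
  have h4 := avg4_thm Ω S β p o b F η hp hη.le hF
  have h6 := avg6_thm Ω S β p o b F r M hp hF hM hr
  set L : Set Ω := {ω | law (Pool.Agent.H49.Ent.cond p b (b ω)) o (o ω) < η} with hL
  have hlog : 0 < Real.log F.card := Real.log_pos (by exact_mod_cast hF2)
  have hd0 : ∀ w, 0 ≤ dbl p b w := dbl_nonneg hp.nonneg
  -- marginals
  have m1 : ∀ E : Set Ω, Pr (dbl p b) {w | w.1 ∈ E} = Pr p E := by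
    intro E
    unfold Pr
    exact (dbl_fst (b := b) hp.nonneg).law (fun ω => ω ∈ E) True
  have m2 : ∀ E : Set Ω, Pr (dbl p b) {w | w.2 ∈ E} = Pr p E := by
    intro E
    unfold Pr
    exact (dbl_snd (b := b) hp.nonneg).law (fun ω => ω ∈ E) True
  set G : Set (Ω × Ω) := {w | ¬ r (o w.1) (o w.2) ∧
        TIV (smp d N (Pool.Agent.H49.Ent.cond p b (b w.1))) (smX (N := N) X) (fun w => V w.1)
          (g (b w.1) (o w.1) - g (b w.1) (o w.2))
          (2 * ((Real.sqrt e₁ + Real.sqrt e₂ + e₃) / η) + 2 * (d * R / N))} with hG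
  have h7 : Pr (dbl p b) {w | ¬ r (o w.1) (o w.2)} ≤
      Pr (dbl p b) (G ∪ ({w | w.1 ∈ E} ∪ ({w | w.1 ∈ L} ∪ {w | w.2 ∈ L}))) := by
    refine Pool.KAF.Pr_mono hd0 ?_
    intro w hw hr'
    by_cases c1 : w.1 ∈ E
    · exact Or.inr (Or.inl c1)
    by_cases c2 : w.1 ∈ L
    · exact Or.inr (Or.inr (Or.inl c2))
    by_cases c3 : w.2 ∈ L
    · exact Or.inr (Or.inr (Or.inr c3))
    refine Or.inl ⟨hr', ?_⟩
    have hb : b w.1 = b w.2 := dbl_eq hp.nonneg hw
    have hp1 : 0 < p w.1 := ((glue_pos_iff hp.nonneg hp.nonneg w).mp hw).1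
    refine hT w.1 c1 hp1 _ _ (le_of_not_gt fun h => c2 h) ?_
    rw [hb]
    exact le_of_not_gt fun h => c3 h
  have h8 := Pool.KAF.Pr_union_le hd0 G ({w | w.1 ∈ E} ∪ ({w | w.1 ∈ L} ∪ {w | w.2 ∈ L}))
  have h9 := Pool.KAF.Pr_union_le hd0 {w : Ω × Ω | w.1 ∈ E} ({w | w.1 ∈ L} ∪ {w | w.2 ∈ L})
  have h10 := Pool.KAF.Pr_union_le hd0 {w : Ω × Ω | w.1 ∈ L} {w | w.2 ∈ L}
  rw [m1 E] at h9
  rw [m1 L, m2 L] at h10
  have h11 : (CH p o b - Real.log 2 - Real.log M) / Real.log F.card ≤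
      Pr (dbl p b) {w | ¬ r (o w.1) (o w.2)} := by
    rw [div_le_iff₀ hlog]
    exact h6
  linarith

end Pool.KX
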