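import Pool.Agent.H70.K2.MarDefs
import Pool.Agent.H73.KAF.RST

/-!
# Deficits and mutual informations under a dominated law
-/

set_option autoImplicit false

namespace Pool.KX

open Finset Real
open Pool.Agent.H49.Ent Pool.Agent.H32.Dense Pool.STK Pool.KAF

namespace DOM

variable {Ω : Type} [Fintype Ω]

/-- Gibbs' inequality for the laws of a variable. -/
lemma gibbs {S : Type} {p q : Ω → ℝ} (hp : IsLaw p) (hq : IsLaw q) (κ : ℝ)
    (h : ∀ ω, q ω ≤ κ * p ω) (X : Ω → S) :
    0 ≤ ∑ ω, q ω * (Real.log (law q X (X ω)) - Real.log (law p X (X ω))) := by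
  classical
  have h1 : ∀ ω, q ω - q ω * (law p X (X ω) / law q X (X ω)) ≤
      q ω * (Real.log (law q X (X ω)) - Real.log (law p X (X ω))) := by
    intro ω
    rcases (hq.nonneg ω).eq_or_lt with h0 | h0
    · rw [← h0]
      simp
    · have a1 : 0 < law q X (X ω) := law_pos hq.nonneg X h0
      have hp0 : 0 < p ω := by
        rcases (hp.nonneg ω).eq_or_lt with h2 | h2
        · have := h ω
          rw [← h2, mul_zero] at this
          linarith
        · exact h2
      have a2 : 0 < law p X (X ω) := law_pos hp.nonneg X hp0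
      have a3 := Real.log_le_sub_one_of_pos (x := law p X (X ω) / law q X (X ω)) (by positivity)
      rw [Real.log_div a2.ne' a1.ne'] at a3
      have a4 := mul_le_mul_of_nonneg_left a3 h0.le
      nlinarith
  refine le_trans ?_ (Finset.sum_le_sum fun ω _ => h1 ω)
  rw [Finset.sum_sub_distrib, hq.sum_one]
  rw [sum_mul_eq_sum_image q X (fun s => law p X s / law q X s)]
  have h2 : ∀ s ∈ univ.image X, law q X s * (law p X s / law q X s) ≤ law p X s := by
    intro s _
    rcases (law_nonneg hq.nonneg X s).eq_or_lt with h0 | h0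
    · rw [← h0, zero_mul]
      exact law_nonneg hp.nonneg X s
    · rw [mul_div_cancel₀ _ h0.ne']
  have h3 := Finset.sum_le_sum h2
  rw [sum_law, hp.sum_one] at h3
  linarith

/-- The mean of a ratio with the law of a variable in the denominator. -/
lemma mean_ratio {S : Type} [DecidableEq S] {p : Ω → ℝ} (hp : ∀ ω, 0 ≤ p ω) (W : Ω → S)
    (R : S → ℝ) (F : Finset S) (hR : ∀ s, 0 ≤ R s) (hF : ∀ s, 0 < law p W s → s ∈ F) :
    ∑ ω, p ω * (R (W ω) / law p W (W ω)) ≤ ∑ s ∈ F, R s := by
  rw [sum_mul_eq_sum_image p W (fun s => R s / law p W s)]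
  have h1 : ∀ s ∈ univ.image W, law p W s * (R s / law p W s) ≤
      if s ∈ F then R s else 0 := by
    intro s _
    rcases (law_nonneg hp W s).eq_or_lt with h0 | h0
    · rw [← h0, zero_mul]
      split_ifs
      exacts [hR s, le_rfl]
    · rw [if_pos (hF s h0), mul_div_cancel₀ _ h0.ne']
  refine (Finset.sum_le_sum h1).trans ?_
  rw [← Finset.sum_filter]
  exact Finset.sum_le_sum_of_subset_of_nonneg (fun s hs => (mem_filter.1 hs).2)
    fun s _ _ => hR s

lemma law_pos_iff {S : Type} {p : Ω → ℝ} (hp : ∀ ω, 0 ≤ p ω) (W : Ω → S) {s : S}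
    (h : 0 < law p W s) : ∃ ω, 0 < p ω ∧ W ω = s := by
  classical
  by_contra hcon
  push Not at hcon
  have : law p W s = 0 := by
    unfold law
    refine Finset.sum_eq_zero fun ω _ => ?_
    split_ifs with h1
    · rcases (hp ω).eq_or_lt with h0 | h0
      · exact h0.symm
      · exact absurd h1 (hcon ω h0)
    · rfl
  linarith

/-- Marginalisation. -/
lemma sum_law_pair {S U : Type} [DecidableEq S] (p : Ω → ℝ) (X : Ω → S) (b : Ω → U) (z : U) :
    ∑ x ∈ univ.image X, law p (fun ω => (X ω, b ω)) (x, z) = law p b z := by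
  classical
  unfold law
  rw [Finset.sum_comm]
  refine Finset.sum_congr rfl fun ω _ => ?_
  rw [Finset.sum_eq_single (X ω)]
  · by_cases h : b ω = z
    · rw [if_pos h, if_pos (show (X ω, b ω) = (X ω, z) from Prod.ext rfl h)]
    · rw [if_neg h, if_neg (by intro h'; exact h (Prod.ext_iff.1 h').2)]
  · intro t _ ht
    rw [if_neg (by intro h'; exact ht (Prod.ext_iff.1 h').1.symm)]
  · intro h
    exact absurd (Finset.mem_image_of_mem X (Finset.mem_univ ω)) h

lemma law_le {S : Type} {p q : Ω → ℝ} (κ : ℝ) (h : ∀ ω, q ω ≤ κ * p ω) (X : Ω → S) (s : S) :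
    law q X s ≤ κ * law p X s := by
  classical
  unfold law
  rw [Finset.mul_sum]
  refine Finset.sum_le_sum fun ω _ => ?_
  split_ifs
  · exact h ω
  · simp

lemma pos_of_dom {p q : Ω → ℝ} (hp : ∀ ω, 0 ≤ p ω) (κ : ℝ) (h : ∀ ω, q ω ≤ κ * p ω) {ω : Ω}
    (hq : 0 < q ω) : 0 < p ω := by
  rcases (hp ω).eq_or_lt with h2 | h2
  · have := h ω
    rw [← h2, mul_zero] at this
    linarith
  · exact h2

lemma κ_pos {p q : Ω → ℝ} (hp : IsLaw p) (hq : IsLaw q) (κ : ℝ) (h : ∀ ω, q ω ≤ κ * p ω) :
    1 ≤ κ := by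
  have := Finset.sum_le_sum fun ω (_ : ω ∈ univ) => h ω
  rwa [← Finset.mul_sum, hp.sum_one, hq.sum_one, mul_one] at this

/-- The mean of the logarithm of the density is at most `log κ`. -/
lemma log_dens {S : Type} {p q : Ω → ℝ} (hp : IsLaw p) (hq : IsLaw q) (κ : ℝ)
    (h : ∀ ω, q ω ≤ κ * p ω) (X : Ω → S) :
    ∑ ω, q ω * (Real.log (law q X (X ω)) - Real.log (law p X (X ω))) ≤ Real.log κ := by
  have hκ := κ_pos hp hq κ h
  have h1 : ∀ ω, q ω * (Real.log (law q X (X ω)) - Real.log (law p X (X ω))) ≤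
      q ω * Real.log κ := by
    intro ω
    rcases (hq.nonneg ω).eq_or_lt with h0 | h0
    · rw [← h0]
      simp
    · refine mul_le_mul_of_nonneg_left ?_ h0.le
      have hp0 := pos_of_dom hp.nonneg κ h h0
      have a1 : 0 < law q X (X ω) := law_pos hq.nonneg X h0
      have a2 : 0 < law p X (X ω) := law_pos hp.nonneg X hp0
      have a3 := Real.log_le_log a1 (law_le κ h X (X ω))
      rw [Real.log_mul (by positivity) a2.ne'] at a3
      linarith
  refine (Finset.sum_le_sum fun ω _ => h1 ω).trans ?_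
  rw [← Finset.sum_mul, hq.sum_one, one_mul]

/-- The mean of a function under a dominated law, if its negative part is controlled. -/
lemma mean_dom {p q : Ω → ℝ} (hp : IsLaw p) (hq : IsLaw q) (κ : ℝ)
    (h : ∀ ω, q ω ≤ κ * p ω) (f u : Ω → ℝ) (hu : ∀ ω, 0 < p ω → 0 ≤ u ω)
    (hfu : ∀ ω, 0 < p ω → -f ω ≤ u ω) :
    ∑ ω, q ω * f ω ≤ κ * (∑ ω, p ω * f ω + ∑ ω, p ω * u ω) := by
  have hκ := κ_pos hp hq κ h
  rw [← Finset.sum_add_distrib, Finset.mul_sum]
  refine Finset.sum_le_sum fun ω _ => ?_
  rcases (hp.nonneg ω).eq_or_lt with h0 | h0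
  · have h1 := h ω
    rw [← h0, mul_zero] at h1
    have h2 : q ω = 0 := le_antisymm h1 (hq.nonneg ω)
    rw [h2, ← h0]
    simp
  · have h1 := hu ω h0
    have h2 := hfu ω h0
    have h3 := h ω
    have h4 : q ω * f ω ≤ q ω * (f ω + u ω) :=
      mul_le_mul_of_nonneg_left (by linarith) (hq.nonneg ω)
    have h5 : q ω * (f ω + u ω) ≤ κ * p ω * (f ω + u ω) :=
      mul_le_mul_of_nonneg_right h3 (by linarith)
    nlinarith

end DOM

open DOM

theorem dom1_thm : DOM1Stmt := by
  classical
  intro Ω S Λ _ p q T lam F κ hp hq h hF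
  have hne : ∃ ω, 0 < p ω := by
    by_contra hcon
    push Not at hcon
    have h1 : ∑ ω, p ω ≤ 0 := Finset.sum_nonpos fun ω _ => hcon ω
    rw [hp.sum_one] at h1
    linarith
  obtain ⟨ω₀, hω₀⟩ := hne
  have hFc : (0 : ℝ) < F.card := by
    exact_mod_cast Finset.card_pos.2 ⟨T ω₀, hF ω₀ hω₀⟩
  set f : Ω → ℝ := fun ω => Real.log F.card +
    (Real.log (law p (fun ω => (T ω, lam ω)) (T ω, lam ω)) - Real.log (law p lam (lam ω))) with hf
  set u : Ω → ℝ := fun ω => (law p lam (lam ω) / F.card) /
    law p (fun ω => (T ω, lam ω)) (T ω, lam ω) with hu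
  have hCq : Real.log F.card - CH q T lam = ∑ ω, q ω * (Real.log F.card +
      (Real.log (law q (fun ω => (T ω, lam ω)) (T ω, lam ω)) -
        Real.log (law q lam (lam ω)))) := by
    unfold CH H
    simp only [mul_add, mul_sub, Finset.sum_add_distrib, Finset.sum_sub_distrib]
    rw [← Finset.sum_mul, hq.sum_one]
    ring
  have hCp : ∑ ω, p ω * f ω = Real.log F.card - CH p T lam := by
    unfold CH H
    simp only [hf, mul_add, mul_sub, Finset.sum_add_distrib, Finset.sum_sub_distrib]
    rw [← Finset.sum_mul, hp.sum_one]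
    ring
  have e1 : Real.log F.card - CH q T lam =
      ∑ ω, q ω * (Real.log (law q (fun ω => (T ω, lam ω)) (T ω, lam ω)) -
        Real.log (law p (fun ω => (T ω, lam ω)) (T ω, lam ω))) -
      ∑ ω, q ω * (Real.log (law q lam (lam ω)) - Real.log (law p lam (lam ω))) +
      ∑ ω, q ω * f ω := by
    rw [hCq, ← Finset.sum_sub_distrib, ← Finset.sum_add_distrib]
    refine Finset.sum_congr rfl fun ω _ => ?_
    simp only [hf]
    ring
  have b1 := log_dens hp hq κ h (fun ω => (T ω, lam ω))
  have b2 := gibbs hp hq κ h lam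
  have b3 := mean_dom hp hq κ h f u (by
    intro ω hω
    have a1 := law_pos hp.nonneg lam hω
    have a2 := law_pos hp.nonneg (fun ω => (T ω, lam ω)) hω
    simp only [hu]
    positivity) (by
    intro ω hω
    have a1 : 0 < law p lam (lam ω) := law_pos hp.nonneg lam hω
    have a2 : 0 < law p (fun ω => (T ω, lam ω)) (T ω, lam ω) :=
      law_pos hp.nonneg (fun ω => (T ω, lam ω)) hω
    have a3 : 0 < u ω := by
      simp only [hu]
      positivity
    have a4 := Real.log_le_sub_one_of_pos a3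
    have a5 : Real.log (u ω) = -f ω := by
      simp only [hu, hf]
      rw [Real.log_div (by positivity) a2.ne', Real.log_div a1.ne' hFc.ne']
      ring
    linarith)
  have b4 : ∑ ω, p ω * u ω ≤ 1 := by
    have := mean_ratio hp.nonneg (fun ω => (T ω, lam ω))
      (fun s : S × Λ => law p lam s.2 / F.card) (F ×ˢ univ.image lam)
      (fun s => div_nonneg (law_nonneg hp.nonneg lam s.2) hFc.le) (by
        intro s hs
        obtain ⟨ω, hω, rfl⟩ := law_pos_iff hp.nonneg _ hs
        exact mem_product.2 ⟨hF ω hω, mem_image_of_mem _ (mem_univ _)⟩)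
    refine this.trans ?_
    rw [Finset.sum_product]
    simp only
    rw [Finset.sum_const, ← Finset.sum_div, sum_law, hp.sum_one, nsmul_eq_mul]
    exact le_of_eq (mul_div_cancel₀ _ hFc.ne')
  have hκ := κ_pos hp hq κ h
  rw [e1]
  rw [hCp] at b3
  have b5 : κ * (Real.log F.card - CH p T lam + ∑ ω, p ω * u ω) ≤
      κ * (Real.log F.card - CH p T lam + 1) := by
    refine mul_le_mul_of_nonneg_left ?_ (by linarith)
    linarith
  linarith

theorem dom2_thm : DOM2Stmt := by
  classical
  intro Ω S U β _ p q X Y b κ hp hq h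
  set f : Ω → ℝ := fun ω =>
    Real.log (law p (fun ω => (X ω, (Y ω, b ω))) (X ω, (Y ω, b ω))) -
    Real.log (law p (fun ω => (Y ω, b ω)) (Y ω, b ω)) -
    Real.log (law p (fun ω => (X ω, b ω)) (X ω, b ω)) + Real.log (law p b (b ω)) with hf
  set u : Ω → ℝ := fun ω => (law p (fun ω => (Y ω, b ω)) (Y ω, b ω) *
    law p (fun ω => (X ω, b ω)) (X ω, b ω) / law p b (b ω)) /
    law p (fun ω => (X ω, (Y ω, b ω))) (X ω, (Y ω, b ω)) with hu
  have e1 : CH q X b - CH q X (fun ω => (Y ω, b ω)) =
      ∑ ω, q ω * (Real.log (law q (fun ω => (X ω, (Y ω, b ω))) (X ω, (Y ω, b ω))) -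
        Real.log (law p (fun ω => (X ω, (Y ω, b ω))) (X ω, (Y ω, b ω)))) -
      ∑ ω, q ω * (Real.log (law q (fun ω => (Y ω, b ω)) (Y ω, b ω)) -
        Real.log (law p (fun ω => (Y ω, b ω)) (Y ω, b ω))) -
      ∑ ω, q ω * ((Real.log (law q (fun ω => (X ω, b ω)) (X ω, b ω)) -
        Real.log (law q b (b ω))) - (Real.log (law p (fun ω => (X ω, b ω)) (X ω, b ω)) -
        Real.log (law p b (b ω)))) + ∑ ω, q ω * f ω := by
    unfold CH H
    simp only [hf, mul_add, mul_sub, Finset.sum_add_distrib, Finset.sum_sub_distrib]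
    ring
  have hCp : ∑ ω, p ω * f ω = CH p X b - CH p X (fun ω => (Y ω, b ω)) := by
    unfold CH H
    simp only [hf, mul_add, mul_sub, Finset.sum_add_distrib, Finset.sum_sub_distrib]
    ring
  have b1 := log_dens hp hq κ h (fun ω => (X ω, (Y ω, b ω)))
  have b2 := gibbs hp hq κ h (fun ω => (Y ω, b ω))
  -- conditional Gibbs inequality
  have b3 : 0 ≤ ∑ ω, q ω * ((Real.log (law q (fun ω => (X ω, b ω)) (X ω, b ω)) -
        Real.log (law q b (b ω))) - (Real.log (law p (fun ω => (X ω, b ω)) (X ω, b ω)) -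
        Real.log (law p b (b ω)))) := by
    have h1 : ∀ ω, q ω - q ω * ((law p (fun ω => (X ω, b ω)) (X ω, b ω) * law q b (b ω) /
        law p b (b ω)) / law q (fun ω => (X ω, b ω)) (X ω, b ω)) ≤
        q ω * ((Real.log (law q (fun ω => (X ω, b ω)) (X ω, b ω)) -
        Real.log (law q b (b ω))) - (Real.log (law p (fun ω => (X ω, b ω)) (X ω, b ω)) -
        Real.log (law p b (b ω)))) := by
      intro ω
      rcases (hq.nonneg ω).eq_or_lt with h0 | h0
      · rw [← h0]
        simp
      · have hp0 := pos_of_dom hp.nonneg κ h h0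
        have a1 : 0 < law q (fun ω => (X ω, b ω)) (X ω, b ω) :=
          law_pos hq.nonneg (fun ω => (X ω, b ω)) h0
        have a2 : 0 < law p (fun ω => (X ω, b ω)) (X ω, b ω) :=
          law_pos hp.nonneg (fun ω => (X ω, b ω)) hp0
        have a3 : 0 < law q b (b ω) := law_pos hq.nonneg b h0
        have a4 : 0 < law p b (b ω) := law_pos hp.nonneg b hp0
        have a5 := Real.log_le_sub_one_of_pos (x := (law p (fun ω => (X ω, b ω)) (X ω, b ω) *
          law q b (b ω) / law p b (b ω)) / law q (fun ω => (X ω, b ω)) (X ω, b ω))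
          (by positivity)
        rw [Real.log_div (by positivity) a1.ne', Real.log_div (by positivity) a4.ne',
          Real.log_mul a2.ne' a3.ne'] at a5
        have a6 := mul_le_mul_of_nonneg_left a5 h0.le
        nlinarith
    refine le_trans ?_ (Finset.sum_le_sum fun ω _ => h1 ω)
    rw [Finset.sum_sub_distrib, hq.sum_one]
    have h2 := mean_ratio hq.nonneg (fun ω => (X ω, b ω))
      (fun s : S × β => law p (fun ω => (X ω, b ω)) (s.1, s.2) * law q b s.2 / law p b s.2)
      ((univ.image X) ×ˢ univ.image b)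
      (fun s => div_nonneg (mul_nonneg (law_nonneg hp.nonneg _ _) (law_nonneg hq.nonneg _ _))
        (law_nonneg hp.nonneg _ _)) (by
        intro s hs
        obtain ⟨ω, hω, rfl⟩ := law_pos_iff hq.nonneg _ hs
        exact mem_product.2 ⟨mem_image_of_mem _ (mem_univ _), mem_image_of_mem _ (mem_univ _)⟩)
    have h3 : ∑ s ∈ (univ.image X) ×ˢ univ.image b,
        law p (fun ω => (X ω, b ω)) (s.1, s.2) * law q b s.2 / law p b s.2 ≤ 1 := by
      rw [Finset.sum_product_right]
      simp only
      have h4 : ∀ z ∈ univ.image b, ∑ x ∈ univ.image X,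
          law p (fun ω => (X ω, b ω)) (x, z) * law q b z / law p b z ≤ law q b z := by
        intro z _
        rw [← Finset.sum_div, ← Finset.sum_mul, sum_law_pair]
        rcases (law_nonneg hp.nonneg b z).eq_or_lt with h0 | h0
        · rw [← h0]
          simp [law_nonneg hq.nonneg b z]
        · rw [mul_div_assoc, mul_comm, div_mul_cancel₀ _ h0.ne']
      refine (Finset.sum_le_sum h4).trans ?_
      rw [sum_law, hq.sum_one]
    linarith
  have b4 := mean_dom hp hq κ h f u (by
    intro ω hω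
    have a1 := law_pos hp.nonneg (fun ω => (X ω, (Y ω, b ω))) hω
    have a2 := law_pos hp.nonneg (fun ω => (Y ω, b ω)) hω
    have a3 := law_pos hp.nonneg (fun ω => (X ω, b ω)) hω
    have a4 := law_pos hp.nonneg b hω
    simp only [hu]
    positivity) (by
    intro ω hω
    have a1 : 0 < law p (fun ω => (X ω, (Y ω, b ω))) (X ω, (Y ω, b ω)) :=
      law_pos hp.nonneg (fun ω => (X ω, (Y ω, b ω))) hω
    have a2 : 0 < law p (fun ω => (Y ω, b ω)) (Y ω, b ω) :=
      law_pos hp.nonneg (fun ω => (Y ω, b ω)) hω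
    have a3 : 0 < law p (fun ω => (X ω, b ω)) (X ω, b ω) :=
      law_pos hp.nonneg (fun ω => (X ω, b ω)) hω
    have a4 : 0 < law p b (b ω) := law_pos hp.nonneg b hω
    have a5 : 0 < u ω := by
      simp only [hu]
      positivity
    have a6 := Real.log_le_sub_one_of_pos a5
    have a7 : Real.log (u ω) = -f ω := by
      simp only [hu, hf]
      rw [Real.log_div (by positivity) a1.ne', Real.log_div (by positivity) a4.ne',
        Real.log_mul a2.ne' a3.ne']
      ring
    linarith)
  have b5 : ∑ ω, p ω * u ω ≤ 1 := by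
    have h2 := mean_ratio hp.nonneg (fun ω => (X ω, (Y ω, b ω)))
      (fun s : S × U × β => law p (fun ω => (Y ω, b ω)) (s.2.1, s.2.2) *
        law p (fun ω => (X ω, b ω)) (s.1, s.2.2) / law p b s.2.2)
      ((univ.image X) ×ˢ ((univ.image Y) ×ˢ univ.image b))
      (fun s => div_nonneg (mul_nonneg (law_nonneg hp.nonneg _ _) (law_nonneg hp.nonneg _ _))
        (law_nonneg hp.nonneg _ _)) (by
        intro s hs
        obtain ⟨ω, hω, rfl⟩ := law_pos_iff hp.nonneg _ hs
        exact mem_product.2 ⟨mem_image_of_mem _ (mem_univ _), mem_product.2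
          ⟨mem_image_of_mem _ (mem_univ _), mem_image_of_mem _ (mem_univ _)⟩⟩)
    refine h2.trans ?_
    rw [Finset.sum_product_right, Finset.sum_product_right]
    simp only
    have h4 : ∀ z ∈ univ.image b, ∑ y ∈ univ.image Y, ∑ x ∈ univ.image X,
        law p (fun ω => (Y ω, b ω)) (y, z) * law p (fun ω => (X ω, b ω)) (x, z) / law p b z ≤
        law p b z := by
      intro z _
      have h5 : ∀ y ∈ univ.image Y, ∑ x ∈ univ.image X,
          law p (fun ω => (Y ω, b ω)) (y, z) * law p (fun ω => (X ω, b ω)) (x, z) / law p b z ≤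
          law p (fun ω => (Y ω, b ω)) (y, z) := by
        intro y _
        rw [← Finset.sum_div, ← Finset.mul_sum, sum_law_pair]
        rcases (law_nonneg hp.nonneg b z).eq_or_lt with h0 | h0
        · rw [← h0]
          simp [law_nonneg hp.nonneg]
        · rw [mul_div_assoc, div_self h0.ne', mul_one]
      refine (Finset.sum_le_sum h5).trans ?_
      rw [sum_law_pair]
    refine (Finset.sum_le_sum h4).trans ?_
    rw [sum_law, hp.sum_one]
  have hκ := κ_pos hp hq κ h
  rw [e1]
  rw [hCp] at b4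
  have b6 : κ * (CH p X b - CH p X (fun ω => (Y ω, b ω)) + ∑ ω, p ω * u ω) ≤
      κ * (CH p X b - CH p X (fun ω => (Y ω, b ω)) + 1) := by
    refine mul_le_mul_of_nonneg_left ?_ (by linarith)
    linarith
  linarith

end Pool.KX
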