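import Pool.Agent.H70.KAL.TI

/-!
# From averages over contexts to fixed values of the context: statements

`o` is a block with finitely many values, `b` a context (or a chain of contexts `b i`).
The budget of the block along nested contexts (AVG1), Markov's inequality for the scales (AVG2)
and for the values of the context (AVG3), rare values of the block (AVG4), invariance under
translations at a typical value of the context (AVG5), separated pairs of values (AVG6), and the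
conclusion for a random pair with a common context (AVG7).
-/

set_option autoImplicit false

namespace Pool.KX

open Finset Real MeasureTheory
open Pool.Agent.H49.Ent Pool.Agent.H32.Dense Pool.STK Pool.KAF Pool.KAL

/-- AVG1. Budget of a block along nested contexts. -/
def AVG1Stmt : Prop :=
  ∀ (Ω O : Type) (β ξ : ℕ → Type) [Fintype Ω] (p : Ω → ℝ) (o : Ω → O) (b : ∀ i, Ω → β i)
    (X : ∀ i, Ω → ξ i) (c : ℕ → ℝ) (n : ℕ), (∀ ω, 0 ≤ p ω) →
    (∀ i < n, CH p (fun ω => (b i ω, X i ω)) (b (i + 1)) ≤ c i) →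
    ∑ i ∈ range n, Pool.KVA.MI p o (X i) (b i) ≤
      CH p o (b 0) - CH p o (b n) + ∑ i ∈ range n, c i

/-- AVG2. Markov's inequality for the scales. -/
def AVG2Stmt : Prop :=
  ∀ (n : ℕ) (x : ℕ → ℝ) (S e : ℝ), (∀ i, 0 ≤ x i) → ∑ i ∈ range n, x i ≤ S →
    (((range n).filter fun i => e < x i).card : ℝ) * e ≤ S

/-- AVG3. Markov's inequality for the values of the context. -/
def AVG3Stmt : Prop :=
  ∀ (Ω S T β : Type) [Fintype Ω] (p : Ω → ℝ) (X : Ω → S) (Y : Ω → T) (b : Ω → β) (e a : ℝ),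
    IsLaw p → 0 < e → Pool.KVA.MI p X Y b ≤ e * a →
    Pr p {ω | e < H (Pool.Agent.H49.Ent.cond p b (b ω)) X +
      H (Pool.Agent.H49.Ent.cond p b (b ω)) Y -
      H (Pool.Agent.H49.Ent.cond p b (b ω)) (fun ω' => (X ω', Y ω'))} ≤ a

/-- AVG4. Values of small conditional probability of a block with finitely many values. -/
def AVG4Stmt : Prop :=
  ∀ (Ω S β : Type) [Fintype Ω] (p : Ω → ℝ) (o : Ω → S) (b : Ω → β) (F : Finset S) (η : ℝ),
    IsLaw p → 0 ≤ η → (∀ ω, o ω ∈ F) →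
    Pr p {ω | law (Pool.Agent.H49.Ent.cond p b (b ω)) o (o ω) < η} ≤ η * F.card

/-- AVG5. Invariance under the differences of the displacements at a typical value of the
context. The displacement `g` may depend on the context. -/
def AVG5Stmt : Prop :=
  ∀ (d N : ℕ) (Ω S U β : Type) [Fintype Ω] (p : Ω → ℝ) (X A : Ω → Fin d → ℤ) (V : Ω → U)
    (o : Ω → S) (b : Ω → β) (g : β → S → Fin d → ℤ) (B : Set Ω) (R e₁ e₂ e₃ a η : ℝ), IsLaw p →
    0 < N → 0 ≤ R → 0 < e₁ → 0 < e₂ → 0 < e₃ → 0 < η →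
    (∀ ω, ω ∉ B → ∀ i, |((X ω i - A ω i - g (b ω) (o ω) i : ℤ) : ℝ)| ≤ R) →
    Pool.KVA.MI p (fun ω => (X ω, V ω)) o b ≤ e₁ * a →
    Pool.KVA.MI p (fun ω => (A ω, V ω)) o b ≤ e₂ * a → Pr p B ≤ e₃ * a →
    ∃ E : Set Ω, Pr p E ≤ 3 * a ∧ ∀ ω, ω ∉ E → 0 < p ω → ∀ s s' : S,
      η ≤ law (Pool.Agent.H49.Ent.cond p b (b ω)) o s →
      η ≤ law (Pool.Agent.H49.Ent.cond p b (b ω)) o s' →
      TIV (smp d N (Pool.Agent.H49.Ent.cond p b (b ω))) (smX (N := N) X) (fun w => V w.1)
        (g (b ω) s - g (b ω) s')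
        (2 * ((Real.sqrt e₁ + Real.sqrt e₂ + e₃) / η) + 2 * (d * R / N))

/-- AVG6. Two samples with the same context have values which are not near, with positive
probability, if the block has enough entropy given the context. -/
def AVG6Stmt : Prop :=
  ∀ (Ω S β : Type) [Fintype Ω] (p : Ω → ℝ) (o : Ω → S) (b : Ω → β) (F : Finset S)
    (r : S → S → Prop) (M : ℕ) [∀ s, DecidablePred fun x => r x s], IsLaw p → (∀ ω, o ω ∈ F) → 1 ≤ M →
    (∀ s, (F.filter fun x => r x s).card ≤ M) →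
    CH p o b - Real.log 2 - Real.log M ≤
      Pr (dbl p b) {w | ¬ r (o w.1) (o w.2)} * Real.log F.card

/-- AVG7. A random pair with a common context has values which are not near and which give a
translation of small effect, with positive probability. -/
def AVG7Stmt : Prop :=
  ∀ (d N : ℕ) (Ω S U β : Type) [Fintype Ω] (p : Ω → ℝ) (X A : Ω → Fin d → ℤ) (V : Ω → U)
    (o : Ω → S) (b : Ω → β) (g : β → S → Fin d → ℤ) (B : Set Ω) (F : Finset S)
    (r : S → S → Prop) (M : ℕ) (R e₁ e₂ e₃ a η : ℝ) [∀ s, DecidablePred fun x => r x s], IsLaw p →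
    0 < N → 0 ≤ R → 0 < e₁ → 0 < e₂ → 0 < e₃ → 0 < η → 1 ≤ M → 2 ≤ F.card → (∀ ω, o ω ∈ F) →
    (∀ s, (F.filter fun x => r x s).card ≤ M) →
    (∀ ω, ω ∉ B → ∀ i, |((X ω i - A ω i - g (b ω) (o ω) i : ℤ) : ℝ)| ≤ R) →
    Pool.KVA.MI p (fun ω => (X ω, V ω)) o b ≤ e₁ * a →
    Pool.KVA.MI p (fun ω => (A ω, V ω)) o b ≤ e₂ * a → Pr p B ≤ e₃ * a →
    (CH p o b - Real.log 2 - Real.log M) / Real.log F.card - 3 * a - 2 * (η * F.card) ≤
      Pr (dbl p b) {w | ¬ r (o w.1) (o w.2) ∧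
        TIV (smp d N (Pool.Agent.H49.Ent.cond p b (b w.1))) (smX (N := N) X) (fun w => V w.1)
          (g (b w.1) (o w.1) - g (b w.1) (o w.2))
          (2 * ((Real.sqrt e₁ + Real.sqrt e₂ + e₃) / η) + 2 * (d * R / N))}

end Pool.KX
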