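import Pool.Agent.H62.LJ.Stmts

/-!
# Long separations with an arbitrary turning, and the place dependent bookkeeping: statements

MARA, MARB: the displacements `(s - t) r(t)` seen from a base time `s` are spread out for most base
times (projections in the directions `(1, s)`), whatever the function `r` is, if `|r|` is bounded
below. MARD: one step of the walk along crossing lines from base times in a class where the slope
is `0` to partner times where the slope is large: the rows of the normal position are full. MARE: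
the same with the roles of the two classes exchanged. PLI: place dependent Pliss lemma.
-/

set_option autoImplicit false

namespace Pool.KX

open Finset Real
open Pool.Agent.H49.Ent Pool.Agent.H32.Dense Pool.STK Pool.KAF

/-- Row MARA. Collisions of displacements, summed over the base time.

Proof. Put `ρ = 128 / δ`. `(s - t) r - (s - t') r' = (s - t') (r - r') - (t - t') r`. If
`|t - t'| α ≤ 2 ρ` there are at most `M (4 ρ / α + 1)` pairs and `M` values of `s`. Otherwise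
`M |r - r'| ≥ |t - t'| α - ρ ≥ |t - t'| α / 2`, so that `s` is in an interval of length
`2 ρ / |r - r'| ≤ 4 ρ M / (α |t - t'|)`. Sum of `1 / |t - t'|`. -/
def MARAStmt : Prop :=
  ∃ C : ℝ, 1 ≤ C ∧ ∀ (M : ℕ) (r : ℕ → ℝ) (α δ : ℝ), 1 ≤ M → 0 < α → α ≤ 1 → 0 < δ → δ ≤ 1 →
    (((((range M) ×ˢ (range M)) ×ˢ (range M)).filter fun w : (ℕ × ℕ) × ℕ =>
      α ≤ |r w.1.1| ∧ α ≤ |r w.1.2| ∧
      |((w.2 : ℝ) - w.1.1) * r w.1.1 - ((w.2 : ℝ) - w.1.2) * r w.1.2| ≤ 128 / δ).card : ℝ) ≤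
      C * (M : ℝ) ^ 2 * (1 + Real.log M) / (α * δ)

/-- Row MARB. Conditional form.

Proof. For every value of `c` with `δ ≤ |d c|` apply LJA to the pair `(S, T)` with `U` the uniform
law on `[0, M)²` and the map `(S, x)`: the collision energy is at most
`C (1 + log M) / (α δ M ^ 2)` by MARA, and `KL = (log M - H S) + (log M - H(T | S))`. Then
`H(x | S) = H(S, x) - H(S) ≥ H(S, x) - log M`. -/
def MARBStmt : Prop :=
  ∃ C : ℝ, 1 ≤ C ∧ ∀ (W Γ : Type) [Fintype W] (q : W → ℝ) (c : W → Γ) (S T x : W → ℤ)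
    (r x0 : Γ → ℤ → ℝ) (d : Γ → ℝ) (M : ℕ) (α δ : ℝ), IsLaw q → 1 ≤ M → 0 < α → α ≤ 1 →
    0 < δ → δ ≤ 1 →
    (∀ w, 0 < q w → 0 ≤ S w ∧ S w < M ∧ 0 ≤ T w ∧ T w < M ∧ α ≤ |r (c w) (T w)|) →
    (∀ w, 0 < q w →
      |(x w : ℝ) - (x0 (c w) (S w) + ((S w : ℝ) - T w) * r (c w) (T w) * d (c w))| ≤ 64) →
    Pr q {w | δ ≤ |d (c w)|} * (Real.log M - Real.log (C * (1 + Real.log M) / (α * δ))) -
      2 * ((Real.log M - CH q S c) + (Real.log M - CH q T (fun w => (S w, c w)))) - 3 ≤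
      CH q x (fun w => (S w, c w))

/-- Row MARD. Base times in the class `F = 0`, partner times in `B`, where `|F| ≥ α 2 ^ K`; nothing
else is assumed about the slope. `lam` is the line with the window, `b` the label, `P` the fine
plank and the position; `nz`, `vz`, `F` the normal position, the normal velocity and the slope in
the frame of the class; `om` the tangential velocity. `E` are the base places: the partner times
have probability at least `η` given the line.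

Proof. Tuple `(o₃, o₁', o₁)`: `o₃` has law `rs p E`, `o₁'` is drawn from `p` given
`lam = lam o₃` and `B`, `o₁` is a copy of `o₁'` given `(b, T, P)`. Put `κ = 1 / (η * Pr p E)`. The
laws of `o₁'`, `o₁` and of the pair `(o₁', o₁)` are at most `κ` times `p`, `p` and
`dbl p (b, T, P)`. MARB with `S = T o₃`, `T = T o₁`, `x = nz o₃`, `c = (lam o₁, om o₁')`,
`d = (om o₁' - om o₁) / 2 ^ K`, `r = F (lam o₁, T) / 2 ^ K`, `M = 2 ^ K`. Entropies:
`H(T o₁ | lam o₁) ≥ K log 2 - κ (e + 1) - log κ` (domination), `I(om o₁'; T o₁, lam o₁ | b) ≤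
κ (I + 1) + log κ`, and `H(S | T o₁, c) ≥ H(S | lam o₃) ≥ K log 2 - κ (e + 1) - log κ` because
`S` and `T o₁'` are independent given `lam o₃`. `(S, c)` determines `(b, T) o₃`. -/
def MARDStmt : Prop :=
  ∃ C : ℝ, 1 ≤ C ∧ ∀ (Ω Λ β γ : Type) [Fintype Ω] (p : Ω → ℝ) (lam : Ω → Λ) (b : Ω → β)
    (P : Ω → γ) (T nz om vz F : Ω → ℤ) (E B : Set Ω) (K : ℕ) (α δ e I β2 η κ : ℝ), IsLaw p →
    0 < α → α ≤ 1 → 0 < δ → δ ≤ 1 → 0 < η → 0 < Pr p E → 0 ≤ e → 0 ≤ I → 0 ≤ β2 →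
    κ = 1 / (η * Pr p E) → κ * β2 ≤ 1 →
    (∀ ω, 0 < p ω → 0 ≤ T ω ∧ T ω < 2 ^ K ∧ |om ω| ≤ 2 ^ K ∧ |F ω| ≤ 2 ^ K) →
    (∀ ω ω', 0 < p ω → 0 < p ω' → lam ω = lam ω' → b ω = b ω' ∧ om ω = om ω' ∧ vz ω = vz ω' ∧
      |2 ^ K * ((nz ω' : ℝ) - nz ω) - ((T ω' : ℝ) - T ω) * vz ω| ≤ 4 * 2 ^ K ∧
      (T ω = T ω' → F ω = F ω')) →
    (∀ ω ω', 0 < p ω → 0 < p ω' → b ω = b ω' → T ω = T ω' → P ω = P ω' →
      nz ω = nz ω' ∧ F ω = F ω' ∧ (ω ∈ B → ω' ∈ B) ∧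
      |2 ^ K * ((vz ω' : ℝ) - vz ω) - F ω * ((om ω' : ℝ) - om ω)| ≤ 4 * 2 ^ K) →
    (∀ ω ∈ B, 0 < p ω → α * 2 ^ K ≤ |(F ω : ℝ)|) →
    (∀ ω ∈ E, 0 < p ω → η ≤ Pr (Pool.Agent.H49.Ent.cond p lam (lam ω)) B) →
    K * Real.log 2 - e ≤ CH p T lam →
    CH p om b - CH p om (fun ω => (b ω, T ω, P ω)) ≤ I →
    Pr (dbl p (fun ω => (b ω, T ω, P ω))) {w | |(om w.2 : ℝ) - om w.1| < δ * 2 ^ K} ≤ β2 →
    (1 - κ * β2) * (K * Real.log 2 - Real.log (C * (1 + K) / (α * δ))) -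
      C * (κ * (e + I + 1)) ≤ CH (rs p E) nz (fun ω => (b ω, T ω))

/-- Row MARE. Base places in `E` with slope at least `α 2 ^ K`, a function of `(b, T)` on `E`;
partner times in the class `B`, where `|F| ≤ A`. `nf` is the normal position in the frame of the
base place. Same proof, with the base time and its slope in the condition: for fixed
`(s, F(s))` the displacement `(s - t) (F(t) - F(s))` takes every value at most
`C (1 + A) / (α δ)` times up to bounded errors. -/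
def MAREStmt : Prop :=
  ∃ C : ℝ, 1 ≤ C ∧ ∀ (Ω Λ β γ : Type) [Fintype Ω] (p : Ω → ℝ) (lam : Ω → Λ) (b : Ω → β)
    (P : Ω → γ) (T y nz nf om vz F : Ω → ℤ) (E B : Set Ω) (K : ℕ)
    (A α δ e I β2 η κ : ℝ), IsLaw p →
    0 < α → α ≤ 1 → 0 < δ → δ ≤ 1 → 0 < η → 0 < Pr p E → 0 ≤ e → 0 ≤ I → 0 ≤ β2 → 0 ≤ A →
    κ = 1 / (η * Pr p E) → κ * β2 ≤ 1 →
    (∀ ω, 0 < p ω → 0 ≤ T ω ∧ T ω < 2 ^ K ∧ |om ω| ≤ 2 ^ K ∧ |F ω| ≤ 2 ^ K) →
    (∀ ω ω', 0 < p ω → 0 < p ω' → lam ω = lam ω' → b ω = b ω' ∧ om ω = om ω' ∧ vz ω = vz ω' ∧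
      |2 ^ K * ((y ω' : ℝ) - y ω) - ((T ω' : ℝ) - T ω) * om ω| ≤ 4 * 2 ^ K ∧
      |2 ^ K * ((nz ω' : ℝ) - nz ω) - ((T ω' : ℝ) - T ω) * vz ω| ≤ 4 * 2 ^ K) →
    (∀ ω ω', 0 < p ω → 0 < p ω' → b ω = b ω' → T ω = T ω' → P ω = P ω' →
      y ω = y ω' ∧ nz ω = nz ω' ∧ F ω = F ω' ∧ (ω ∈ B → ω' ∈ B) ∧
      |2 ^ K * ((vz ω' : ℝ) - vz ω) - F ω * ((om ω' : ℝ) - om ω)| ≤ 4 * 2 ^ K) →
    (∀ ω, 0 < p ω → |2 ^ K * (nf ω : ℝ) - (2 ^ K * nz ω - F ω * y ω)| ≤ 4 * 2 ^ K) →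
    (∀ ω ∈ B, 0 < p ω → |(F ω : ℝ)| ≤ A) →
    (∀ ω ∈ E, 0 < p ω → α * 2 ^ K ≤ |(F ω : ℝ)| ∧
      η ≤ Pr (Pool.Agent.H49.Ent.cond p lam (lam ω)) B) →
    (∀ ω ∈ E, ∀ ω' ∈ E, 0 < p ω → 0 < p ω' → b ω = b ω' → T ω = T ω' → F ω = F ω') →
    K * Real.log 2 - e ≤ CH p T lam →
    CH p om b - CH p om (fun ω => (b ω, T ω, P ω)) ≤ I →
    Pr (dbl p (fun ω => (b ω, T ω, P ω))) {w | |(om w.2 : ℝ) - om w.1| < δ * 2 ^ K} ≤ β2 →
    (1 - κ * β2) * (K * Real.log 2 - Real.log (C * (1 + A) / (α * δ))) -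
      C * (κ * (e + I + 1)) ≤ CH (rs p E) nf (fun ω => (b ω, T ω))

/-- Row DOM1. Deficits under a dominated law.

Proof. `log |F| - H_q(T | l) = E_q log (q(T|l) |F|) = E_q log (q(T|l) / p(T|l)) + E_q f` with
`f = log (p(T|l) |F|)`. The first term is at most `log κ` (`q(T,l) ≤ κ p(T,l)` and
`E_q log (q(l) / p(l)) ≥ 0`), and `E_q f ≤ κ E_p f⁺ = κ (E_p f + E_p f⁻)`, `E_p f⁻ ≤ 1 / e`
because `f⁻ ≤ u / e` with `u = 1 / (p(T|l) |F|)`. -/
def DOM1Stmt : Prop :=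
  ∀ (Ω S Λ : Type) [Fintype Ω] (p q : Ω → ℝ) (T : Ω → S) (lam : Ω → Λ) (F : Finset S) (κ : ℝ),
    IsLaw p → IsLaw q → (∀ ω, q ω ≤ κ * p ω) → (∀ ω, 0 < p ω → T ω ∈ F) →
    Real.log F.card - CH q T lam ≤
      κ * (Real.log F.card - CH p T lam + 1) + Real.log κ

/-- Row DOM2. Mutual information under a dominated law. Same proof with
`f = log (p(X|Y,b) / p(X|b))`. -/
def DOM2Stmt : Prop :=
  ∀ (Ω S U β : Type) [Fintype Ω] (p q : Ω → ℝ) (X : Ω → S) (Y : Ω → U) (b : Ω → β) (κ : ℝ),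
    IsLaw p → IsLaw q → (∀ ω, q ω ≤ κ * p ω) →
    CH q X b - CH q X (fun ω => (Y ω, b ω)) ≤
      κ * (CH p X b - CH p X (fun ω => (Y ω, b ω)) + 1) + Real.log κ

/-- Row PLI. Place dependent Pliss lemma. `δ j ω` is the deficit of row `j` at the place `ω`. For
every row `P` and all values `v ∉ Bad P` of the label `g P` there is a length `L P v` such that
the rows `(P - L, P]` have mean deficit at most `η` given `g P = v`, for the deficits `D P j`,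
which are at least `δ j - err j`.

Proof. For fixed `ω` let `RP` be the set of rows all of whose backward averages of `δ` are at least
`c`, and `MX` the set of rows which have a backward average of `err` larger than `η'`. Pliss:
`∑ δ ≤ c N + |RP|`; rising sun: `η' |MX| ≤ ∑ err`; and `P ∈ RP \ MX`, `g P ω = v ∉ Bad P` has
conditional probability at most `η / (c - η')` given `g P = v` by Markov's inequality. -/
def PLIStmt : Prop :=
  ∀ (Ω : Type) (γ : ℕ → Type) [Fintype Ω] (p : Ω → ℝ) (N : ℕ) (δ err : ℕ → Ω → ℝ)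
    (D : ℕ → ℕ → Ω → ℝ) (g : ∀ P, Ω → γ P) (L : ∀ P, γ P → ℕ) (Bad : ∀ P, Set (γ P))
    (c e η η' : ℝ), IsLaw p → 0 ≤ η → 0 < η' → η' < c → 0 ≤ e →
    (∀ j ω, 0 ≤ δ j ω ∧ δ j ω ≤ 1 ∧ 0 ≤ err j ω) → (∀ P j ω, 0 ≤ D P j ω) →
    (∀ P < N, ∀ j ≤ P, ∀ ω, 0 < p ω → δ j ω ≤ D P j ω + err j ω) →
    (∀ P < N, Pr p {ω | g P ω ∈ Bad P} ≤ e) →
    (∀ P < N, ∀ v, v ∉ Bad P → 1 ≤ L P v ∧ L P v ≤ P + 1 ∧
      ∑ ω, (open Classical in if g P ω = v then p ω * ∑ j ∈ Ico (P + 1 - L P v) (P + 1), D P j ω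
        else 0) ≤ η * L P v * law p (g P) v) →
    ∑ ω, p ω * ∑ P ∈ range N, δ P ω ≤
      (c + e + η / (c - η')) * N + (∑ ω, p ω * ∑ P ∈ range N, err P ω) / η'

end Pool.KX
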