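import Pool.Agent.H70.K2.Dom
import Pool.Agent.H32.Dense.Conf

/-!
# The tuple (base, partner on the same line, mate of the partner)

`o₃` has the law of the base places, `o₁'` is drawn from `p` given `lam = lam o₃` and the event
`B`, `o₁` is a copy of `o₁'` given `Z`. All the marginals are dominated by `κ p`.
-/

set_option autoImplicit false

namespace Pool.KX

open Finset Real
open Pool.Agent.H49.Ent Pool.Agent.H32.Dense Pool.STK Pool.KAF

namespace TUP

variable {Ω : Type} [Fintype Ω] {T Λ γ : Type}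

/-- The law with the conditional laws of `p'` given `Z` and the law `φ` of `Z`. -/
noncomputable def rwt (p' : Ω → ℝ) (Z : Ω → T) (φ : T → ℝ) (ω : Ω) : ℝ :=
  φ (Z ω) * (p' ω / law p' Z (Z ω))

lemma rwt_nonneg {p' : Ω → ℝ} (hp : ∀ ω, 0 ≤ p' ω) (Z : Ω → T) {φ : T → ℝ} (hφ : ∀ z, 0 ≤ φ z)
    (ω : Ω) : 0 ≤ rwt p' Z φ ω :=
  mul_nonneg (hφ _) (div_nonneg (hp ω) (law_nonneg hp Z _))

lemma rwt_law {p' : Ω → ℝ} (Z : Ω → T) {φ : T → ℝ} (h : ∀ z, φ z ≠ 0 → law p' Z z ≠ 0)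
    (z : T) : law (rwt p' Z φ) Z z = φ z := by
  classical
  have h1 : law (rwt p' Z φ) Z z = φ z * (law p' Z z / law p' Z z) := by
    unfold law rwt
    rw [Finset.sum_div, Finset.mul_sum]
    refine Finset.sum_congr rfl fun ω _ => ?_
    by_cases hz : Z ω = z
    · rw [if_pos hz, if_pos hz, hz]
      rfl
    · rw [if_neg hz, if_neg hz]
      simp
  rw [h1]
  by_cases h2 : φ z = 0
  · rw [h2, zero_mul]
  · rw [div_self (h z h2), mul_one]

lemma rwt_dom {p p' : Ω → ℝ} (hp : ∀ ω, 0 ≤ p' ω) (hpp : ∀ ω, p' ω ≤ p ω) (Z : Ω → T)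
    {φ : T → ℝ} (hφ : ∀ z, 0 ≤ φ z) {κ : ℝ} (hκ : 0 ≤ κ) (h : ∀ z, φ z ≤ κ * law p' Z z) (ω : Ω) :
    rwt p' Z φ ω ≤ κ * p ω := by
  unfold rwt
  rcases (law_nonneg hp Z (Z ω)).eq_or_lt with h0 | h0
  · rw [← h0, div_zero, mul_zero]
    exact mul_nonneg hκ ((hp ω).trans (hpp ω))
  · have h1 := h (Z ω)
    have h2 : 0 ≤ p' ω / law p' Z (Z ω) := div_nonneg (hp ω) h0.le
    have h3 := mul_le_mul_of_nonneg_right h1 h2
    have h4 : κ * law p' Z (Z ω) * (p' ω / law p' Z (Z ω)) = κ * p' ω := by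
      field_simp
    rw [h4] at h3
    exact h3.trans (mul_le_mul_of_nonneg_left (hpp ω) hκ)

/-- The data of the tuple. -/
structure Dat (p : Ω → ℝ) (lam : Ω → Λ) (Z : Ω → γ) (E B : Set Ω) (η κ : ℝ) : Prop where
  hp : IsLaw p
  hη : 0 < η
  hE : 0 < Pr p E
  hκ : κ = 1 / (η * Pr p E)
  hB : ∀ ω ∈ E, 0 < p ω → η ≤ Pr (Pool.Agent.H49.Ent.cond p lam (lam ω)) B

open Classical in
/-- `p` restricted to `B`, not normalised. -/
noncomputable def res (p : Ω → ℝ) (B : Set Ω) (ω : Ω) : ℝ := if ω ∈ B then p ω else 0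

/-- The law of `o₁'`. -/
noncomputable def r1 (p : Ω → ℝ) (lam : Ω → Λ) (E B : Set Ω) : Ω → ℝ :=
  rwt (res p B) lam (law (rs p E) lam)

/-- The law of `o₁`. -/
noncomputable def r2 (p : Ω → ℝ) (lam : Ω → Λ) (Z : Ω → γ) (E B : Set Ω) : Ω → ℝ :=
  rwt p Z (law (r1 p lam E B) Z)

/-- The law of `(o₃, o₁')`. -/
noncomputable def q1 (p : Ω → ℝ) (lam : Ω → Λ) (E B : Set Ω) : Ω × Ω → ℝ :=
  glue (rs p E) (r1 p lam E B) lam lam

/-- The law of the tuple `((o₃, o₁'), o₁)`. -/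
noncomputable def qq (p : Ω → ℝ) (lam : Ω → Λ) (Z : Ω → γ) (E B : Set Ω) : (Ω × Ω) × Ω → ℝ :=
  glue (q1 p lam E B) (r2 p lam Z E B) (fun w => Z w.2) Z

variable {p : Ω → ℝ} {lam : Ω → Λ} {Z : Ω → γ} {E B : Set Ω} {η κ : ℝ}

lemma res_nonneg (hp : ∀ ω, 0 ≤ p ω) (ω : Ω) : 0 ≤ res p B ω := by
  unfold res
  split_ifs
  exacts [hp ω, le_rfl]

lemma res_le (hp : ∀ ω, 0 ≤ p ω) (ω : Ω) : res p B ω ≤ p ω := by
  unfold res
  split_ifs
  exacts [le_rfl, hp ω]

/-- The mass of `B` on a line. -/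
lemma law_res (p : Ω → ℝ) (lam : Ω → Λ) (B : Set Ω) (l : Λ) (hl : law p lam l ≠ 0) :
    law (res p B) lam l = Pr (Pool.Agent.H49.Ent.cond p lam l) B * law p lam l := by
  classical
  have h0 : ∀ ω, (if ω ∈ B then Pool.Agent.H49.Ent.cond p lam l ω else 0) * law p lam l =
      if lam ω = l then res p B ω else 0 := by
    intro ω
    unfold res Pool.Agent.H49.Ent.cond
    by_cases h1 : lam ω = l
    · rw [if_pos h1, if_pos h1]
      by_cases h2 : ω ∈ B
      · rw [if_pos h2, if_pos h2, div_mul_cancel₀ _ hl]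
      · rw [if_neg h2, if_neg h2, zero_mul]
    · rw [if_neg h1, if_neg h1]
      split_ifs <;> simp
  rw [Pool.KAF.Pr_eq, Finset.sum_mul]
  have h3 : law (res p B) lam l = ∑ ω, if lam ω = l then res p B ω else 0 := by
    unfold law
    exact Finset.sum_congr rfl fun ω _ => by split_ifs <;> rfl
  rw [h3]
  exact Finset.sum_congr rfl fun ω _ => (h0 ω).symm

lemma rsE_le (D : Dat p lam Z E B η κ) (ω : Ω) : rs p E ω ≤ 1 / Pr p E * p ω := by
  unfold rs Pool.Agent.H49.Ent.cond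
  split_ifs
  · rw [one_div, mul_comm, ← div_eq_mul_inv]
    exact le_rfl
  · exact mul_nonneg (by have := D.hE; positivity) (D.hp.nonneg ω)

lemma η_le (D : Dat p lam Z E B η κ) : η ≤ 1 := by
  classical
  have h := D.hE
  have h1 : ∃ ω, 0 < p ω ∧ ω ∈ E := by
    by_contra hcon
    push Not at hcon
    rw [Pool.KAF.Pr_eq] at h
    have : ∑ ω, (if ω ∈ E then p ω else 0) ≤ 0 := by
      refine Finset.sum_nonpos fun ω _ => ?_
      split_ifs with h2
      · by_contra h3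
        exact hcon ω (not_le.1 h3) h2
      · exact le_rfl
    linarith
  obtain ⟨ω, hω, hE⟩ := h1
  have h2 := D.hB ω hE hω
  have h3 : IsLaw (Pool.Agent.H49.Ent.cond p lam (lam ω)) :=
    ⟨fun ω' => cond_nonneg D.hp.nonneg _ _ ω', sum_cond p _ (law_pos D.hp.nonneg lam hω).ne'⟩
  exact h2.trans (Pool.KAF.Pr_le_one h3 B)

lemma κ_one (D : Dat p lam Z E B η κ) : 1 ≤ κ := by
  rw [D.hκ]
  have h1 := η_le D
  have h2 := Pool.KAF.Pr_le_one D.hp E
  have h3 := D.hη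
  have h4 := D.hE
  rw [le_div_iff₀ (by positivity)]
  nlinarith

lemma invE_le (D : Dat p lam Z E B η κ) : 1 / Pr p E ≤ κ := by
  rw [D.hκ]
  have h1 := η_le D
  have h3 := D.hη
  have h4 := D.hE
  rw [div_le_div_iff₀ h4 (by positivity)]
  nlinarith

/-- The label law of the bases is at most `κ` times the mass of `B`. -/
lemma lawE_le (D : Dat p lam Z E B η κ) (l : Λ) :
    law (rs p E) lam l ≤ κ * law (res p B) lam l := by
  classical
  have hκ := κ_one D
  have hn : 0 ≤ law (res p B) lam l := law_nonneg (res_nonneg D.hp.nonneg) lam l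
  rcases (law_nonneg (fun ω => (rs_law D.hp D.hE).nonneg ω) lam l).eq_or_lt with h0 | h0
  · rw [← h0]
    exact mul_nonneg (by linarith) hn
  · obtain ⟨ω, hω, rfl⟩ := DOM.law_pos_iff (rs_law D.hp D.hE).nonneg lam h0
    obtain ⟨hpω, hEω⟩ := (rs_pos_iff D.hp E ω).1 hω
    have h1 := D.hB ω hEω hpω
    have h2 := law_pos D.hp.nonneg lam hpω
    rw [law_res p lam B _ h2.ne']
    have h3 : law (rs p E) lam (lam ω) ≤ 1 / Pr p E * law p lam (lam ω) :=
      DOM.law_le _ (rsE_le D) lam _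
    have h4 := D.hE
    have h5 := D.hη
    have h6 : 1 / Pr p E * law p lam (lam ω) ≤
        κ * (Pr (Pool.Agent.H49.Ent.cond p lam (lam ω)) B * law p lam (lam ω)) := by
      rw [D.hκ]
      have h7 : 1 / Pr p E * law p lam (lam ω) =
          1 / (η * Pr p E) * (η * law p lam (lam ω)) := by
        field_simp
      rw [h7]
      gcongr
    exact h3.trans h6

lemma r1_nonneg (D : Dat p lam Z E B η κ) (ω : Ω) : 0 ≤ r1 p lam E B ω :=
  rwt_nonneg (res_nonneg D.hp.nonneg) lam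
    (fun z => law_nonneg (rs_law D.hp D.hE).nonneg lam z) ω

lemma r1_law (D : Dat p lam Z E B η κ) (l : Λ) :
    law (r1 p lam E B) lam l = law (rs p E) lam l := by
  refine rwt_law lam ?_ l
  intro z hz h0
  have h1 := lawE_le D z
  rw [h0, mul_zero] at h1
  exact hz (le_antisymm h1 (law_nonneg (rs_law D.hp D.hE).nonneg lam z))

lemma r1_sum (D : Dat p lam Z E B η κ) : ∑ ω, r1 p lam E B ω = 1 := by
  classical
  have h1 := sum_law (r1 p lam E B) lam
  have h2 := sum_law (rs p E) lam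
  rw [← h1, Finset.sum_congr rfl fun l _ => r1_law D l, h2]
  exact (rs_law D.hp D.hE).sum_one

lemma r1_isLaw (D : Dat p lam Z E B η κ) : IsLaw (r1 p lam E B) := ⟨r1_nonneg D, r1_sum D⟩

lemma r1_dom (D : Dat p lam Z E B η κ) (ω : Ω) : r1 p lam E B ω ≤ κ * p ω :=
  rwt_dom (res_nonneg D.hp.nonneg) (res_le D.hp.nonneg) lam
    (fun z => law_nonneg (rs_law D.hp D.hE).nonneg lam z) (by linarith [κ_one D]) (lawE_le D) ω

lemma r1_mem (D : Dat p lam Z E B η κ) {ω : Ω} (h : 0 < r1 p lam E B ω) : ω ∈ B := by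
  by_contra hB
  unfold r1 rwt res at h
  rw [if_neg hB, zero_div, mul_zero] at h
  exact lt_irrefl _ h

lemma r2_nonneg (D : Dat p lam Z E B η κ) (ω : Ω) : 0 ≤ r2 p lam Z E B ω :=
  rwt_nonneg D.hp.nonneg Z (fun z => law_nonneg (r1_nonneg D) Z z) ω

lemma r2_law (D : Dat p lam Z E B η κ) (z : γ) :
    law (r2 p lam Z E B) Z z = law (r1 p lam E B) Z z := by
  refine rwt_law Z ?_ z
  intro z hz h0
  have h1 := DOM.law_le κ (r1_dom D) Z z
  rw [h0, mul_zero] at h1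
  exact hz (le_antisymm h1 (law_nonneg (r1_nonneg D) Z z))

lemma r2_sum (D : Dat p lam Z E B η κ) : ∑ ω, r2 p lam Z E B ω = 1 := by
  classical
  have h1 := sum_law (r2 p lam Z E B) Z
  have h2 := sum_law (r1 p lam E B) Z
  rw [← h1, Finset.sum_congr rfl fun l _ => r2_law D l, h2]
  exact r1_sum D

lemma r2_isLaw (D : Dat p lam Z E B η κ) : IsLaw (r2 p lam Z E B) := ⟨r2_nonneg D, r2_sum D⟩

lemma r2_dom (D : Dat p lam Z E B η κ) (ω : Ω) : r2 p lam Z E B ω ≤ κ * p ω :=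
  rwt_dom D.hp.nonneg (fun _ => le_rfl) Z (fun z => law_nonneg (r1_nonneg D) Z z)
    (by linarith [κ_one D]) (fun z => DOM.law_le κ (r1_dom D) Z z) ω

/-! ### The tuple -/

lemma hZ1 (D : Dat p lam Z E B η κ) (l : Λ) :
    law (rs p E) lam l = law (r1 p lam E B) lam l := (r1_law D l).symm

lemma q1_nonneg (D : Dat p lam Z E B η κ) (w : Ω × Ω) : 0 ≤ q1 p lam E B w :=
  glue_nonneg (rs_law D.hp D.hE).nonneg (r1_nonneg D) w

lemma q1_fst (D : Dat p lam Z E B η κ) : Marg (q1 p lam E B) (rs p E) (fun w => w.1) :=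
  marg_fst (rs_law D.hp D.hE).nonneg (hZ1 D)

lemma q1_snd (D : Dat p lam Z E B η κ) : Marg (q1 p lam E B) (r1 p lam E B) (fun w => w.2) :=
  marg_snd (r1_nonneg D) (hZ1 D)

lemma hZ2 (D : Dat p lam Z E B η κ) (z : γ) :
    law (q1 p lam E B) (fun w => Z w.2) z = law (r2 p lam Z E B) Z z := by
  rw [r2_law D]
  exact (q1_snd D).law Z z

lemma qq_nonneg (D : Dat p lam Z E B η κ) (w : (Ω × Ω) × Ω) : 0 ≤ qq p lam Z E B w :=
  glue_nonneg (q1_nonneg D) (r2_nonneg D) w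

lemma qq_fst (D : Dat p lam Z E B η κ) : Marg (qq p lam Z E B) (q1 p lam E B) (fun w => w.1) :=
  marg_fst (q1_nonneg D) (hZ2 D)

lemma qq_o1 (D : Dat p lam Z E B η κ) : Marg (qq p lam Z E B) (r2 p lam Z E B) (fun w => w.2) :=
  marg_snd (r2_nonneg D) (hZ2 D)

lemma qq_o3 (D : Dat p lam Z E B η κ) : Marg (qq p lam Z E B) (rs p E) (fun w => w.1.1) :=
  (qq_fst D).comp (q1_fst D)

lemma qq_o1' (D : Dat p lam Z E B η κ) :
    Marg (qq p lam Z E B) (r1 p lam E B) (fun w => w.1.2) :=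
  (qq_fst D).comp (q1_snd D)

lemma qq_isLaw (D : Dat p lam Z E B η κ) : IsLaw (qq p lam Z E B) :=
  ⟨qq_nonneg D, by rw [(qq_o1 D).sum, r2_sum D]⟩

/-- The support of the tuple. -/
lemma qq_pos (D : Dat p lam Z E B η κ) {w : (Ω × Ω) × Ω} (h : 0 < qq p lam Z E B w) :
    0 < p w.1.1 ∧ w.1.1 ∈ E ∧ 0 < p w.1.2 ∧ w.1.2 ∈ B ∧ 0 < p w.2 ∧ lam w.1.1 = lam w.1.2 ∧
      Z w.1.2 = Z w.2 := by
  obtain ⟨h1, h2, h3⟩ := (glue_pos_iff (q1_nonneg D) (r2_nonneg D) w).1 h
  obtain ⟨h4, h5, h6⟩ := (glue_pos_iff (rs_law D.hp D.hE).nonneg (r1_nonneg D) w.1).1 h1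
  obtain ⟨h7, h8⟩ := (rs_pos_iff D.hp E w.1.1).1 h4
  exact ⟨h7, h8, DOM.pos_of_dom D.hp.nonneg κ (r1_dom D) h5, r1_mem D h5,
    DOM.pos_of_dom D.hp.nonneg κ (r2_dom D) h2, h6, h3⟩

/-- The base is independent of the partner and its mate given the line. -/
lemma CH_base {S : Type} (D : Dat p lam Z E B η κ) (X : Ω → S) :
    CH (qq p lam Z E B) (fun w => X w.1.1) (fun w => ((lam w.1.1, w.1.2), w.2)) =
      CH (rs p E) X lam := by
  have h1 := CH_glue_fst (p₁ := q1 p lam E B) (p₂ := r2 p lam Z E B) (Z₁ := fun w => Z w.2)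
    (Z₂ := Z) (q1_nonneg D) (r2_nonneg D) (hZ2 D) (fun w => X w.1)
    (Y := fun w => (lam w.1, w.2)) (fun ω => ω) (by
      intro w w' _ _ h
      have h5 : w.2 = w'.2 := (Prod.ext_iff.1 h).2
      show Z w.2 = Z w'.2
      rw [h5])
  have h2 := CH_glue_fst (p₁ := rs p E) (p₂ := r1 p lam E B) (Z₁ := lam) (Z₂ := lam)
    (rs_law D.hp D.hE).nonneg (r1_nonneg D) (hZ1 D) X (Y := lam) (fun ω => ω)
    (fun _ _ _ _ h => h)
  unfold qq
  rw [h1]
  exact h2

/-- The velocity of the partner is independent of its mate given `Z`. -/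
lemma CH_mate {S : Type} (D : Dat p lam Z E B η κ) (X : Ω → S) :
    CH (qq p lam Z E B) (fun w => X w.1.2) (fun w => (Z w.1.2, w.2)) =
      CH (r1 p lam E B) X Z := by
  have h1 := CH_glue_fst (p₁ := q1 p lam E B) (p₂ := r2 p lam Z E B) (Z₁ := fun w => Z w.2)
    (Z₂ := Z) (q1_nonneg D) (r2_nonneg D) (hZ2 D) (fun w => X w.2)
    (Y := fun w => Z w.2) (fun ω => ω) (fun _ _ _ _ h => h)
  unfold qq
  rw [h1]
  exact (q1_snd D).CH X Z

/-- The law of the pair (partner, mate) is dominated by two copies. -/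
lemma pair_dom (D : Dat p lam Z E B η κ) (R : Ω → Ω → Prop) :
    Pr (qq p lam Z E B) {w | R w.1.2 w.2} ≤ κ * Pr (dbl p Z) {w | R w.1 w.2} := by
  classical
  have hM := Marg.glue (Z₁ := Z) (Z₂ := Z) (q1_snd D) (Marg.id (r2 p lam Z E B))
  have h1 : Pr (qq p lam Z E B) {w | R w.1.2 w.2} =
      Pr (glue (r1 p lam E B) (r2 p lam Z E B) Z Z) {w | R w.1 w.2} := by
    unfold Pr
    exact hM.law (fun w => w ∈ {w : Ω × Ω | R w.1 w.2}) True
  rw [h1, Pool.KAF.Pr_eq, Pool.KAF.Pr_eq, Finset.mul_sum]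
  refine Finset.sum_le_sum fun w _ => ?_
  by_cases hR : R w.1 w.2
  · rw [if_pos (by exact hR), if_pos (by exact hR)]
    unfold dbl glue
    by_cases hz : Z w.1 = Z w.2
    · rw [if_pos hz, if_pos hz]
      have a1 := r1_dom D w.1
      have a2 := r1_nonneg D w.1
      have a3 := D.hp.nonneg w.2
      have a4 : 0 ≤ law p Z (Z w.1) := law_nonneg D.hp.nonneg Z _
      have a5 : 0 ≤ law (r1 p lam E B) Z (Z w.1) := law_nonneg (r1_nonneg D) Z _
      unfold r2 rwt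
      rw [← hz]
      rcases a5.eq_or_lt with h0 | h0
      · rw [← h0, div_zero]
        exact mul_nonneg (by linarith [κ_one D])
          (div_nonneg (mul_nonneg (D.hp.nonneg _) a3) a4)
      · have e1 : r1 p lam E B w.1 * (law (r1 p lam E B) Z (Z w.1) *
            (p w.2 / law p Z (Z w.1))) / law (r1 p lam E B) Z (Z w.1) =
            r1 p lam E B w.1 * (p w.2 / law p Z (Z w.1)) := by
          field_simp
        rw [e1]
        have e2 : κ * (p w.1 * p w.2 / law p Z (Z w.1)) =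
            κ * p w.1 * (p w.2 / law p Z (Z w.1)) := by
          ring
        rw [e2]
        exact mul_le_mul_of_nonneg_right a1 (div_nonneg a3 a4)
    · rw [if_neg hz, if_neg hz, mul_zero]
  · rw [if_neg (by exact hR), if_neg (by exact hR), mul_zero]

/-! ### Entropies of the two times -/

/-- The deficit of the time of the base and of the partner. -/
lemma times {b : Ω → T} {P' : Ω → γ} (D : Dat p lam Z E B η κ) (Tm om : Ω → ℤ) (K : ℕ) (e I : ℝ)
    (hT : ∀ ω, 0 < p ω → 0 ≤ Tm ω ∧ Tm ω < 2 ^ K)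
    (hb : ∀ ω ω', 0 < p ω → 0 < p ω' → lam ω = lam ω' → b ω = b ω')
    (hZb : ∀ ω ω', Z ω = Z ω' → b ω = b ω' ∧ Tm ω = Tm ω' )
    (hZf : ∀ ω ω', b ω = b ω' → (Tm ω, P' ω) = (Tm ω', P' ω') → Z ω = Z ω')
    (he : K * Real.log 2 - e ≤ CH p Tm lam)
    (hI : CH p om b - CH p om (fun ω => ((Tm ω, P' ω), b ω)) ≤ I) :
    K * Real.log 2 - 3 * (κ * (e + I + 1) + Real.log κ) ≤
      CH (qq p lam Z E B) (fun w => Tm w.2)
        (fun w => (Tm w.1.1, (lam w.2, om w.1.2))) := by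
  classical
  have hq := qq_isLaw D
  have hq0 := hq.nonneg
  have hκ := κ_one D
  -- deficits
  have hF : ∀ ω, 0 < p ω → Tm ω ∈ Finset.Ico (0 : ℤ) (2 ^ K) := fun ω hω =>
    Finset.mem_Ico.2 (hT ω hω)
  have hcard : Real.log ((Finset.Ico (0 : ℤ) (2 ^ K)).card) = K * Real.log 2 := by
    rw [Int.card_Ico, sub_zero]
    have : ((((2 : ℤ) ^ K).toNat : ℕ) : ℝ) = 2 ^ K := by
      have h1 : (((2 : ℤ) ^ K).toNat : ℤ) = 2 ^ K := Int.toNat_of_nonneg (by positivity)
      exact_mod_cast h1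
    rw [this, Real.log_pow]
  have d1 := dom1_thm Ω ℤ Λ p (rs p E) Tm lam _ κ D.hp (rs_law D.hp D.hE) (by
    intro ω
    refine (rsE_le D ω).trans ?_
    exact mul_le_mul_of_nonneg_right (invE_le D) (D.hp.nonneg ω)) hF
  have d2 := dom1_thm Ω ℤ Λ p (r2 p lam Z E B) Tm lam _ κ D.hp (r2_isLaw D) (r2_dom D) hF
  rw [hcard] at d1 d2
  have d3 := dom2_thm Ω ℤ (ℤ × γ) T p (r1 p lam E B) om (fun ω => (Tm ω, P' ω)) b κ D.hp
    (r1_isLaw D) (r1_dom D)
  -- the time of the partner given the line of the mate and the velocity of the partner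
  have s1 : CH (qq p lam Z E B) (fun w => Tm w.2) (fun w => lam w.2) =
      CH (r2 p lam Z E B) Tm lam := (qq_o1 D).CH Tm lam
  have s2 : CH (qq p lam Z E B) (fun w => om w.1.2) (fun w => lam w.2) ≤
      CH (r1 p lam E B) om b := by
    rw [← (qq_o1' D).CH om b]
    refine CH_mono_cond hq0 ?_
    intro w w' hw hw' h
    obtain ⟨_, _, a3, _, a5, _, a7⟩ := qq_pos D hw
    obtain ⟨_, _, b3, _, b5, _, b7⟩ := qq_pos D hw'
    have h1 := hb _ _ a5 b5 h
    have h2 := (hZb _ _ a7).1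
    have h3 := (hZb _ _ b7).1
    show b w.1.2 = b w'.1.2
    rw [h2, h1, h3]
  have s3 : CH (r1 p lam E B) om Z ≤
      CH (qq p lam Z E B) (fun w => om w.1.2) (fun w => (Tm w.2, lam w.2)) := by
    rw [← CH_mate D om]
    refine CH_mono_cond hq0 ?_
    intro w w' _ _ h
    have := (Prod.ext_iff.1 h).2
    simp only at this
    simp only [this]
  have s4 : CH (r1 p lam E B) om Z = CH (r1 p lam E B) om (fun ω => ((Tm ω, P' ω), b ω)) ∨
      CH (r1 p lam E B) om (fun ω => ((Tm ω, P' ω), b ω)) ≤ CH (r1 p lam E B) om Z := by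
    right
    refine CH_mono_cond (r1_nonneg D) ?_
    intro ω ω' _ _ h
    exact hZf ω ω' (Prod.ext_iff.1 h).2 (Prod.ext_iff.1 h).1
  have s4' : CH (r1 p lam E B) om (fun ω => ((Tm ω, P' ω), b ω)) ≤ CH (r1 p lam E B) om Z := by
    rcases s4 with h | h
    · rw [h]
    · exact h
  -- chain rules
  have c1 := CH_chain hq0 (fun w : (Ω × Ω) × Ω => Tm w.2) (fun w => om w.1.2) (fun w => lam w.2)
  have c2 := CH_chain hq0 (fun w : (Ω × Ω) × Ω => om w.1.2) (fun w => Tm w.2) (fun w => lam w.2)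
  have c3 : CH (qq p lam Z E B) (fun w => (Tm w.2, om w.1.2)) (fun w => lam w.2) =
      CH (qq p lam Z E B) (fun w => (om w.1.2, Tm w.2)) (fun w => lam w.2) := by
    refine CH_congr hq0 ?_ ?_ (fun _ _ _ _ h => h) (fun _ _ _ _ h => h)
    · intro w w' _ _ h
      have h1 := (Prod.ext_iff.1 h).1
      exact Prod.ext (Prod.ext_iff.1 h1).2 (Prod.ext_iff.1 h1).1
    · intro w w' _ _ h
      have h1 := (Prod.ext_iff.1 h).1
      exact Prod.ext (Prod.ext_iff.1 h1).2 (Prod.ext_iff.1 h1).1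
  have c4 : CH (qq p lam Z E B) (fun w => Tm w.2) (fun w => (om w.1.2, lam w.2)) =
      CH (qq p lam Z E B) (fun w => Tm w.2) (fun w => (lam w.2, om w.1.2)) := by
    refine CH_congr hq0 ?_ ?_ ?_ ?_
    · intro w w' _ _ h
      exact (Prod.ext_iff.1 h).1
    · intro w w' _ _ h
      exact (Prod.ext_iff.1 h).1
    · intro w w' _ _ h
      exact Prod.ext (Prod.ext_iff.1 h).2 (Prod.ext_iff.1 h).1
    · intro w w' _ _ h
      exact Prod.ext (Prod.ext_iff.1 h).2 (Prod.ext_iff.1 h).1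
  -- the base time given everything
  have t1 := CH_chain hq0 (fun w : (Ω × Ω) × Ω => Tm w.2) (fun w => Tm w.1.1)
    (fun w => (lam w.2, om w.1.2))
  have t2 := CH_chain hq0 (fun w : (Ω × Ω) × Ω => Tm w.1.1) (fun w => Tm w.2)
    (fun w => (lam w.2, om w.1.2))
  have t3 : CH (qq p lam Z E B) (fun w => (Tm w.2, Tm w.1.1)) (fun w => (lam w.2, om w.1.2)) =
      CH (qq p lam Z E B) (fun w => (Tm w.1.1, Tm w.2)) (fun w => (lam w.2, om w.1.2)) := by
    refine CH_congr hq0 ?_ ?_ (fun _ _ _ _ h => h) (fun _ _ _ _ h => h)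
    · intro w w' _ _ h
      have h1 := (Prod.ext_iff.1 h).1
      exact Prod.ext (Prod.ext_iff.1 h1).2 (Prod.ext_iff.1 h1).1
    · intro w w' _ _ h
      have h1 := (Prod.ext_iff.1 h).1
      exact Prod.ext (Prod.ext_iff.1 h1).2 (Prod.ext_iff.1 h1).1
  have t4 : CH (rs p E) Tm lam ≤
      CH (qq p lam Z E B) (fun w => Tm w.1.1) (fun w => (Tm w.2, (lam w.2, om w.1.2))) := by
    rw [← CH_base D Tm]
    refine CH_mono_cond hq0 ?_
    intro w w' _ _ h
    have h1 := (Prod.ext_iff.1 h).2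
    have h2 := (Prod.ext_iff.1 (Prod.ext_iff.1 h).1).2
    simp only at h1 h2
    simp only [h1, h2]
  have t5 : CH (qq p lam Z E B) (fun w => Tm w.1.1) (fun w => (lam w.2, om w.1.2)) ≤
      K * Real.log 2 := by
    have := CH_le_card hq0 hq.sum_one (fun w => Tm w.1.1) (fun w => (lam w.2, om w.1.2))
      (fun _ => Finset.Ico (0 : ℤ) (2 ^ K)) (by
        intro w hw
        exact hF _ (qq_pos D hw).1)
    refine this.trans ?_
    rw [hcard]
    unfold Ex
    rw [← Finset.sum_mul, hq.sum_one, one_mul]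
  have hI0 : κ * (CH p om b - CH p om (fun ω => ((Tm ω, P' ω), b ω)) + 1) ≤ κ * (I + 1) :=
    mul_le_mul_of_nonneg_left (by linarith) (by linarith)
  have he0 : κ * (K * Real.log 2 - CH p Tm lam + 1) ≤ κ * (e + 1) :=
    mul_le_mul_of_nonneg_left (by linarith) (by linarith)
  have hsplit : κ * (e + I + 1) = κ * (e + 1) + κ * I := by ring
  have hsplit2 : κ * (I + 1) = κ * I + κ := by ring
  have hsplit3 : κ * (e + 1) = κ * e + κ := by ring
  have he1 : 0 ≤ e := by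
    have : CH p Tm lam ≤ K * Real.log 2 := by
      have := CH_le_card D.hp.nonneg D.hp.sum_one Tm lam (fun _ => Finset.Ico (0 : ℤ) (2 ^ K)) hF
      refine this.trans ?_
      rw [hcard]
      unfold Ex
      rw [← Finset.sum_mul, D.hp.sum_one, one_mul]
    linarith
  have hI1 : 0 ≤ I := by
    have : CH p om (fun ω => ((Tm ω, P' ω), b ω)) ≤ CH p om b := by
      refine CH_mono_cond D.hp.nonneg ?_
      intro ω ω' _ _ h
      exact (Prod.ext_iff.1 h).2
    linarith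
  have hκe : 0 ≤ κ * e := mul_nonneg (by linarith) he1
  have hκI : 0 ≤ κ * I := mul_nonneg (by linarith) hI1
  have hlogκ : 0 ≤ Real.log κ := Real.log_nonneg hκ
  nlinarith

end TUP

end Pool.KX
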